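import Mathlib
import Pool.Agent.Helper543.Small

/-! Lower bounds using the numbers of circles and lines of each size through each point. -/

namespace Pool.Agent.TH348.Circ.Types

open Finset Pool.Agent.Helper543.Count Pool.Agent.Helper543.Bounds Pool.Agent.Helper543.Small

variable {α : Type} [DecidableEq α]

omit [DecidableEq α] in
/-- grouping a sum by size -/
lemma sum_by_card (T : Finset (Finset α)) (M : ℕ) (hT : ∀ b ∈ T, 2 ≤ b.card ∧ b.card ≤ M)
    (f : ℕ → ℤ) :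
    ∑ b ∈ T, f b.card = ∑ k ∈ Icc 2 M, ((T.filter (fun b => b.card = k)).card : ℤ) * f k := by
  rw [← sum_fiberwise_of_maps_to (g := fun b => b.card) (t := Icc 2 M)
    (fun b hb => mem_Icc.2 (hT b hb))]
  apply sum_congr rfl
  intro k _
  rw [sum_congr rfl (g := fun _ => f k) (fun b hb => by rw [(mem_filter.1 hb).2]), sum_const,
    nsmul_eq_mul]

/-- number of circles of size `k` through `p` -/
def ac (S : Cfg α) (p : α) (k : ℕ) : ℕ :=
  ((S.circ.filter (fun b => p ∈ b)).filter (fun b => b.card = k)).card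

/-- number of lines of size `k` through `p` -/
def al (S : Cfg α) (p : α) (k : ℕ) : ℕ :=
  ((S.L.filter (fun b => p ∈ b)).filter (fun b => b.card = k)).card

lemma sum_circ (S : Cfg α) (p : α) (M : ℕ) (hM : ∀ b ∈ S.B, b.card ≤ M) (f : ℕ → ℤ) :
    ∑ b ∈ S.circ with p ∈ b, f b.card = ∑ k ∈ Icc 2 M, (ac S p k : ℤ) * f k := by
  apply sum_by_card
  intro b hb
  have hbB := (mem_sdiff.1 (mem_filter.1 hb).1).1
  have := S.hB3 b hbB
  exact ⟨by omega, hM b hbB⟩

lemma sum_line (S : Cfg α) (p : α) (M : ℕ) (hM : ∀ b ∈ S.L, b.card ≤ M) (f : ℕ → ℤ) :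
    ∑ b ∈ S.L with p ∈ b, f b.card = ∑ k ∈ Icc 2 M, (al S p k : ℤ) * f k := by
  apply sum_by_card
  intro b hb
  have hbL := (mem_filter.1 hb).1
  exact ⟨S.hL2 b hbL, hM b hbL⟩

lemma ac_two (S : Cfg α) (p : α) : ac S p 2 = 0 := by
  unfold ac
  rw [card_eq_zero, filter_eq_empty_iff]
  intro b hb h2
  have := S.hB3 b (mem_sdiff.1 (mem_filter.1 hb).1).1
  omega

/-- the line equation at a point -/
lemma line_eq (S : Cfg α) {p : α} (hp : p ∈ S.P) :
    ∑ l ∈ S.L with p ∈ l, ((l.card : ℤ) - 1) = (S.P.card : ℤ) - 1 := by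
  have h := E5 S (C := {p}) (by simpa using hp)
  rw [card_singleton] at h
  rw [sum_filter]
  have e : ∑ a ∈ S.L, (if p ∈ a then ((a.card : ℤ) - 1) else 0) =
      ∑ b ∈ S.L, ((b ∩ {p}).card : ℤ) * ((b.card : ℤ) - (b ∩ {p}).card) := by
    apply sum_congr rfl
    intro b _
    by_cases hb : p ∈ b
    · rw [if_pos hb, inter_singleton_of_mem hb, card_singleton]; push_cast; ring
    · rw [if_neg hb, inter_singleton_of_notMem hb, card_empty]; push_cast; ring
  rw [e, h]; push_cast; ring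

/-- the block equation at a point -/
lemma block_eq (S : Cfg α) {p : α} (hp : p ∈ S.P) :
    ∑ b ∈ S.B with p ∈ b, ((b.card : ℤ) - 1) * ((b.card : ℤ) - 2) =
      ((S.P.card : ℤ) - 1) * ((S.P.card : ℤ) - 2) := by
  have h := E2 S (C := {p}) (by simpa using hp)
  rw [card_singleton] at h
  rw [sum_filter]
  have e : ∑ a ∈ S.B, (if p ∈ a then ((a.card : ℤ) - 1) * ((a.card : ℤ) - 2) else 0) =
      ∑ b ∈ S.B, ((b ∩ {p}).card : ℤ) * (((b.card : ℤ) - (b ∩ {p}).card) *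
        ((b.card : ℤ) - (b ∩ {p}).card - 1)) := by
    apply sum_congr rfl
    intro b _
    by_cases hb : p ∈ b
    · rw [if_pos hb, inter_singleton_of_mem hb, card_singleton]; push_cast; ring
    · rw [if_neg hb, inter_singleton_of_notMem hb, card_empty]; push_cast; ring
  rw [e, h]; push_cast; ring

/-- splitting the blocks through a point into circles and long lines -/
lemma split_point (S : Cfg α) (p : α) (f : Finset α → ℤ) :
    ∑ b ∈ S.B with p ∈ b, f b = ∑ b ∈ S.circ with p ∈ b, f b +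
      ∑ l ∈ S.L with p ∈ l, (if (3 : ℤ) ≤ l.card then f l else 0) := by
  rw [sum_filter, sum_filter, sum_filter, split_B]
  congr 1
  apply sum_congr rfl
  intro l _
  split_ifs <;> rfl

/-- lower bound for the number of circles, around a circle, with weights at the points -/
theorem caseAT (S : Cfg α) {C : Finset α} (hC : C ∈ S.circ) (w : Wt) (h1 : 0 ≤ w.u1)
    (h2 : 0 ≤ w.u2) (h3 : 0 ≤ w.u3) (h4 : 0 ≤ w.u4) (h5 : 0 ≤ w.u5) (h6 : 0 ≤ w.v1)
    (h7 : 0 ≤ w.v2) (hm : ∀ b ∈ S.B, b.card ≤ C.card) (hm' : ∀ b ∈ S.L, b.card ≤ C.card)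
    (aC aL bC bL : ℕ → ℤ) (pS pQ : ℤ)
    (hS : ∀ p ∈ C, pS ≤ ∑ b ∈ S.circ with p ∈ b, aC b.card + ∑ b ∈ S.L with p ∈ b, aL b.card)
    (hQ : ∀ p ∈ S.P \ C, pQ ≤
      ∑ b ∈ S.circ with p ∈ b, bC b.card + ∑ b ∈ S.L with p ∈ b, bL b.card)
    (hc : ∀ k j : ℕ, 3 ≤ k → k ≤ C.card → j ≤ 2 → j ≤ k → k ≤ S.P.card - C.card + j →
      Wc w k j + j * aC k + ((k : ℤ) - j) * bC k ≤ w.D)
    (hl : ∀ k j : ℕ, 2 ≤ k → k ≤ C.card → j ≤ 2 → j ≤ k → k ≤ S.P.card - C.card + j →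
      Wl w k j + j * aL k + ((k : ℤ) - j) * bL k ≤ 0) :
    R w S.P.card C.card ((C.card / 2 : ℕ) : ℤ) - Wc w C.card C.card - C.card * aC C.card +
      C.card * pS + ((S.P.card : ℤ) - C.card) * pQ ≤ w.D * (cc S - 1) := by
  have hCB := (mem_sdiff.1 hC).1
  have hCL := (mem_sdiff.1 hC).2
  have hCP := S.hBP C hCB
  have h := cert S hCP w h1 h2 h3 h4 h5 h6 h7
  have hj : ∀ b ⊆ S.P, b.card ≤ S.P.card - C.card + (b ∩ C).card := by
    intro b hb
    have e1 := card_sdiff_add_card_inter b C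
    have e2 : (b \ C).card ≤ (S.P \ C).card := card_le_card (sdiff_subset_sdiff hb (Subset.refl C))
    rw [card_sdiff_of_subset hCP] at e2
    omega
  -- point sums
  have sS : C.card * pS ≤ ∑ b ∈ S.circ, ((b ∩ C).card : ℤ) * aC b.card +
      ∑ b ∈ S.L, ((b ∩ C).card : ℤ) * aL b.card := by
    rw [← sum_point, ← sum_point, ← sum_add_distrib, ← nsmul_eq_mul, ← sum_const]
    exact sum_le_sum hS
  have hcomp : ∀ b, b ⊆ S.P → ((b ∩ (S.P \ C)).card : ℤ) = (b.card : ℤ) - (b ∩ C).card := by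
    intro b hb
    rw [← card_sdiff_int]
    congr 2
    ext x
    simp only [mem_inter, mem_sdiff]
    constructor
    · rintro ⟨h1, _, h3⟩; exact ⟨h1, h3⟩
    · rintro ⟨h1, h3⟩; exact ⟨h1, hb h1, h3⟩
  have sQ : ((S.P.card : ℤ) - C.card) * pQ ≤
      ∑ b ∈ S.circ, ((b.card : ℤ) - (b ∩ C).card) * bC b.card +
      ∑ b ∈ S.L, ((b.card : ℤ) - (b ∩ C).card) * bL b.card := by
    have hK : ((S.P \ C).card : ℤ) = (S.P.card : ℤ) - C.card := by
      rw [card_sdiff_int, inter_eq_right.2 hCP]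
    have := sum_le_sum hQ
    rw [sum_const, nsmul_eq_mul, sum_add_distrib, sum_point, sum_point, hK] at this
    calc _ ≤ _ := this
      _ = _ := by
        congr 1
        · apply sum_congr rfl
          intro b hb
          rw [hcomp b (S.hBP b (mem_sdiff.1 hb).1)]
        · apply sum_congr rfl
          intro b hb
          rw [hcomp b (S.hLP b hb)]
  have hcirc : ∑ b ∈ S.circ, (Wc w b.card (b ∩ C).card + ((b ∩ C).card : ℤ) * aC b.card +
        ((b.card : ℤ) - (b ∩ C).card) * bC b.card) ≤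
      Wc w C.card C.card + C.card * aC C.card + w.D * (cc S - 1) := by
    rw [← add_sum_erase S.circ _ hC, inter_self]
    have : ∑ b ∈ S.circ.erase C, (Wc w b.card (b ∩ C).card + ((b ∩ C).card : ℤ) * aC b.card +
        ((b.card : ℤ) - (b ∩ C).card) * bC b.card) ≤ ∑ b ∈ S.circ.erase C, w.D := by
      apply sum_le_sum
      intro b hb
      have hbne := ne_of_mem_erase hb
      have hbc := mem_of_mem_erase hb
      have hbB := (mem_sdiff.1 hbc).1
      exact hc b.card (b ∩ C).card (S.hB3 b hbB) (hm b hbB) (inter_le_two S hbB hCB hbne)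
        (card_le_card inter_subset_left) (hj b (S.hBP b hbB))
    rw [sum_const, card_erase_of_mem hC, nsmul_eq_mul] at this
    have hpos : 1 ≤ S.circ.card := card_pos.2 ⟨C, hC⟩
    have hcast : ((S.circ.card - 1 : ℕ) : ℤ) = cc S - 1 := by
      unfold cc; push_cast [Nat.cast_sub hpos]; ring
    rw [hcast] at this
    linarith
  have hlin : ∑ l ∈ S.L, (Wl w l.card (l ∩ C).card + ((l ∩ C).card : ℤ) * aL l.card +
        ((l.card : ℤ) - (l ∩ C).card) * bL l.card) ≤ 0 := by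
    apply sum_nonpos
    intro l hlL
    have hj2 : (l ∩ C).card ≤ 2 := by
      by_cases h3 : 3 ≤ l.card
      · have hlB := S.hLB l hlL h3
        exact inter_le_two S hlB hCB (fun e => hCL (e ▸ hlL))
      · have := card_le_card (inter_subset_left : l ∩ C ⊆ l)
        omega
    exact hl l.card (l ∩ C).card (S.hL2 l hlL) (hm' l hlL) hj2
      (card_le_card inter_subset_left) (hj l (S.hLP l hlL))
  simp only [sum_add_distrib] at hcirc hlin
  linarith

lemma sum6 (g : ℕ → ℤ) : ∑ k ∈ Icc 2 6, g k = g 2 + g 3 + g 4 + g 5 + g 6 := by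
  have : Icc 2 6 = ({2, 3, 4, 5, 6} : Finset ℕ) := by decide
  rw [this, sum_insert (by decide), sum_insert (by decide), sum_insert (by decide),
    sum_insert (by decide), sum_singleton]
  ring

/-- the relations between the numbers of circles and lines through a point, sizes at most six -/
lemma rel6 (S : Cfg α) (hM : ∀ b ∈ S.B, b.card ≤ 6) (hM' : ∀ b ∈ S.L, b.card ≤ 6) {p : α}
    (hp : p ∈ S.P) :
    ((al S p 2 : ℤ) + 2 * al S p 3 + 3 * al S p 4 + 4 * al S p 5 + 5 * al S p 6 =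
      (S.P.card : ℤ) - 1) ∧
    (2 * ((ac S p 3 : ℤ) + al S p 3) + 6 * ((ac S p 4 : ℤ) + al S p 4) +
      12 * ((ac S p 5 : ℤ) + al S p 5) + 20 * ((ac S p 6 : ℤ) + al S p 6) =
      ((S.P.card : ℤ) - 1) * ((S.P.card : ℤ) - 2)) ∧
    (3 + ((ac S p 5 : ℤ) + al S p 5) + 2 * ((ac S p 6 : ℤ) + al S p 6) ≤
      (ac S p 3 : ℤ) + al S p 3) ∧
    (3 + (ac S p 5 : ℤ) + 2 * ac S p 6 + al S p 4 + 2 * al S p 5 + 3 * al S p 6 ≤
      (ac S p 3 : ℤ) + al S p 2) := by
  have e1 := line_eq S hp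
  have e2 := block_eq S hp
  have e3 := S.m1 p hp
  have e4 := S.m2 p hp
  have e4' : ∑ b ∈ S.circ with p ∈ b, ((b.card : ℤ) - 4) +
    ∑ l ∈ S.L with p ∈ l, ((l.card : ℤ) - 3) ≤ -3 := e4
  rw [sum_line S p 6 hM' (fun k => (k : ℤ) - 1), sum6] at e1
  rw [split_point, sum_circ S p 6 hM (fun k => ((k : ℤ) - 1) * ((k : ℤ) - 2)),
    sum_line S p 6 hM' (fun k => if (3 : ℤ) ≤ (k : ℤ) then ((k : ℤ) - 1) * ((k : ℤ) - 2) else 0),
    sum6, sum6] at e2
  rw [split_point, sum_circ S p 6 hM (fun k => (k : ℤ) - 4),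
    sum_line S p 6 hM' (fun k => if (3 : ℤ) ≤ (k : ℤ) then (k : ℤ) - 4 else 0),
    sum6, sum6] at e3
  rw [sum_circ S p 6 hM (fun k => (k : ℤ) - 4), sum_line S p 6 hM' (fun k => (k : ℤ) - 3),
    sum6, sum6] at e4'
  rw [ac_two] at e2 e3 e4'
  norm_num at e1 e2 e3 e4'
  refine ⟨?_, ?_, ?_, ?_⟩
  · linarith
  · linarith
  · linarith
  · linarith

/-- number of circles of size `k` -/
def gc (S : Cfg α) (k : ℕ) : ℕ := (S.circ.filter (fun b => b.card = k)).card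

/-- number of lines of size `k` -/
def gl (S : Cfg α) (k : ℕ) : ℕ := (S.L.filter (fun b => b.card = k)).card

lemma sum_incid (T : Finset (Finset α)) (C : Finset α) (k : ℕ) :
    ∑ p ∈ C, (((T.filter (fun b => p ∈ b)).filter (fun b => b.card = k)).card : ℤ) =
      ∑ b ∈ T.filter (fun b => b.card = k), ((b ∩ C).card : ℤ) := by
  have h := sum_point (T.filter (fun b => b.card = k)) C (fun _ => 1)
  simp only [mul_one, sum_const, nsmul_eq_mul] at h
  rw [← h]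
  apply sum_congr rfl
  intro p _
  rw [filter_filter, filter_filter]
  congr 2
  ext b
  simp only [mem_filter]
  tauto

lemma sum_ac (S : Cfg α) (k : ℕ) : ∑ p ∈ S.P, (ac S p k : ℤ) = k * gc S k := by
  unfold ac gc
  rw [sum_incid, sum_congr rfl (g := fun _ => (k : ℤ)), sum_const, nsmul_eq_mul]
  · ring
  · intro b hb
    obtain ⟨hb1, hb2⟩ := mem_filter.1 hb
    rw [inter_eq_left.2 (S.hBP b (mem_sdiff.1 hb1).1), hb2]

lemma sum_al (S : Cfg α) (k : ℕ) : ∑ p ∈ S.P, (al S p k : ℤ) = k * gl S k := by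
  unfold al gl
  rw [sum_incid, sum_congr rfl (g := fun _ => (k : ℤ)), sum_const, nsmul_eq_mul]
  · ring
  · intro b hb
    obtain ⟨hb1, hb2⟩ := mem_filter.1 hb
    rw [inter_eq_left.2 (S.hLP b hb1), hb2]

lemma gc_sum (S : Cfg α) (M : ℕ) (hM : ∀ b ∈ S.B, b.card ≤ M) (f : ℕ → ℤ) :
    ∑ b ∈ S.circ, f b.card = ∑ k ∈ Icc 2 M, (gc S k : ℤ) * f k := by
  apply sum_by_card
  intro b hb
  have hbB := (mem_sdiff.1 hb).1
  have := S.hB3 b hbB
  exact ⟨by omega, hM b hbB⟩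

lemma gl_sum (S : Cfg α) (M : ℕ) (hM : ∀ b ∈ S.L, b.card ≤ M) (f : ℕ → ℤ) :
    ∑ b ∈ S.L, f b.card = ∑ k ∈ Icc 2 M, (gl S k : ℤ) * f k := by
  apply sum_by_card
  intro b hb
  exact ⟨S.hL2 b hb, hM b hb⟩

lemma gc_two (S : Cfg α) : gc S 2 = 0 := by
  unfold gc
  rw [card_eq_zero, filter_eq_empty_iff]
  intro b hb h2
  have := S.hB3 b (mem_sdiff.1 hb).1
  omega

/-- global relations, sizes at most six -/
lemma glob6 (S : Cfg α) (hM : ∀ b ∈ S.B, b.card ≤ 6) (hM' : ∀ b ∈ S.L, b.card ≤ 6) :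
    ((gl S 2 : ℤ) + 3 * gl S 3 + 6 * gl S 4 + 10 * gl S 5 + 15 * gl S 6) * 2 =
      (S.P.card : ℤ) * (S.P.card - 1) ∧
    (((gc S 3 : ℤ) + gl S 3) + 4 * ((gc S 4 : ℤ) + gl S 4) + 10 * ((gc S 5 : ℤ) + gl S 5) +
      20 * ((gc S 6 : ℤ) + gl S 6)) * 6 =
      (S.P.card : ℤ) * ((S.P.card : ℤ) - 1) * ((S.P.card : ℤ) - 2) ∧
    (3 + (gl S 4 : ℤ) + 2 * gl S 5 + 3 * gl S 6 ≤ gl S 2) ∧
    cc S = (gc S 3 : ℤ) + gc S 4 + gc S 5 + gc S 6 := by
  have e1 := Epair S
  have e2 := Etot S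
  have e3 := S.m3
  rw [gl_sum S 6 hM' (fun k => (k : ℤ) * ((k : ℤ) - 1)), sum6] at e1
  rw [split_B, gc_sum S 6 hM (fun k => (k : ℤ) * ((k : ℤ) - 1) * ((k : ℤ) - 2)),
    gl_sum S 6 hM' (fun k => if (3 : ℤ) ≤ (k : ℤ) then
      (k : ℤ) * ((k : ℤ) - 1) * ((k : ℤ) - 2) else 0), sum6, sum6] at e2
  rw [gl_sum S 6 hM' (fun k => (k : ℤ) - 3), sum6] at e3
  have e4 := gc_sum S 6 hM (fun _ => 1)
  rw [sum6, sum_const, nsmul_eq_mul] at e4
  rw [gc_two] at e2 e4
  norm_num at e1 e2 e3 e4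
  refine ⟨?_, ?_, ?_, ?_⟩
  · linarith
  · linarith
  · linarith
  · unfold cc; linarith

end Pool.Agent.TH348.Circ.Types
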