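import Mathlib
import Pool.Agent.TH348.Circ.Types

/-! Fourteen points, largest block a circle of six points. -/

namespace Pool.Agent.TH348.Circ.N14

open Finset Pool.Agent.Helper543.Count Pool.Agent.Helper543.Bounds Pool.Agent.Helper543.Small
open Pool.Agent.TH348.Circ.Types

variable {α : Type} [DecidableEq α]

/-- multipliers -/
def w : Wt := ⟨1843920, 333241, 226778, 40105, -494076, -618096, -124020, 76830, 167830,
  0, 0, 0, 0, 0⟩

/-- point weights -/
def aC (k : ℕ) : ℤ := if k = 3 then 244674 else if k = 4 then -187938 else if k = 5 then -683196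
  else -1241100
/-- point weights -/
def aL (k : ℕ) : ℤ := if k = 2 then 494076 else if k = 3 then 618186 else if k = 4 then 679650
  else if k = 5 then 371148 else 0
/-- point weights -/
def bC (k : ℕ) : ℤ := if k = 3 then 366600 else if k = 4 then -10140 else if k = 5 then -390260
  else -773760
/-- point weights -/
def bL (k : ℕ) : ℤ := if k = 2 then 124020 else if k = 3 then 0 else if k = 4 then 54600
  else if k = 5 then 131430 else 0

/-- bounded universal quantifier -/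
def allLt : ℕ → (ℕ → Bool) → Bool
  | 0, _ => true
  | n + 1, f => f n && allLt n f

lemma allLt_iff (n : ℕ) (f : ℕ → Bool) : allLt n f = true ↔ ∀ k < n, f k = true := by
  induction n with
  | zero => simp [allLt]
  | succ n ih =>
    simp only [allLt, Bool.and_eq_true, ih]
    constructor
    · rintro ⟨h1, h2⟩ k hk
      rcases Nat.lt_succ_iff_lt_or_eq.1 hk with h | h
      · exact h2 k h
      · rw [h]; exact h1
    · intro h
      exact ⟨h n (Nat.lt_succ_self n), fun k hk => h k (Nat.lt_succ_of_lt hk)⟩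

/-- the inequality for one local type -/
def chk (l2 l3 l4 l5 l6 a3 a4 a5 a6 : ℕ) : Bool :=
  !(Nat.ble (3 + (a5 + l5) + 2 * (a6 + l6)) (a3 + l3)) ||
  !(Nat.ble (3 + a5 + 2 * a6 + l4 + 2 * l5 + 3 * l6) (a3 + l2)) ||
  ((!(Nat.ble 1 a6) || Nat.ble (187938 * a4 + 683196 * a5 + 1241100 * a6)
    (244674 * a3 + 494076 * l2 + 618186 * l3 + 679650 * l4 + 371148 * l5)) &&
  Nat.ble (10140 * a4 + 390260 * a5 + 773760 * a6)
    (366600 * a3 + 124020 * l2 + 54600 * l4 + 131430 * l5))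

/-- all local types -/
def tableB : Bool :=
  allLt 3 fun l6 => allLt 4 fun l5 => allLt 5 fun l4 => allLt 7 fun l3 =>
    !(Nat.ble (5 * l6 + 4 * l5 + 3 * l4 + 2 * l3) 13) ||
    (allLt 8 fun a6 => !(Nat.ble (10 * (a6 + l6)) 78) ||
    (allLt 14 fun a5 => !(Nat.ble (10 * (a6 + l6) + 6 * (a5 + l5) + 3 * l4 + l3) 78) ||
    (allLt 27 fun a4 => !(Nat.ble (10 * (a6 + l6) + 6 * (a5 + l5) + 3 * (a4 + l4) + l3) 78) ||
      chk (13 - (5 * l6 + 4 * l5 + 3 * l4 + 2 * l3)) l3 l4 l5 l6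
        (78 - (10 * (a6 + l6) + 6 * (a5 + l5) + 3 * (a4 + l4) + l3)) a4 a5 a6)))

theorem table : tableB = true := by decide +kernel

lemma chk_of {l2 l3 l4 l5 l6 a3 a4 a5 a6 : ℕ}
    (e1 : l2 + 2 * l3 + 3 * l4 + 4 * l5 + 5 * l6 = 13)
    (e2 : (a3 + l3) + 3 * (a4 + l4) + 6 * (a5 + l5) + 10 * (a6 + l6) = 78) :
    chk l2 l3 l4 l5 l6 a3 a4 a5 a6 = true := by
  have h := table
  unfold tableB at h
  have h := (allLt_iff _ _).1 h l6 (by omega)
  have h := (allLt_iff _ _).1 h l5 (by omega)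
  have h := (allLt_iff _ _).1 h l4 (by omega)
  have h := (allLt_iff _ _).1 h l3 (by omega)
  have b1 : Nat.ble (5 * l6 + 4 * l5 + 3 * l4 + 2 * l3) 13 = true := Nat.ble_eq_true_of_le (by omega)
  simp only [b1, Bool.not_true, Bool.false_or] at h
  have h := (allLt_iff _ _).1 h a6 (by omega)
  have b2 : Nat.ble (10 * (a6 + l6)) 78 = true := Nat.ble_eq_true_of_le (by omega)
  simp only [b2, Bool.not_true, Bool.false_or] at h
  have h := (allLt_iff _ _).1 h a5 (by omega)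
  have b3 : Nat.ble (10 * (a6 + l6) + 6 * (a5 + l5) + 3 * l4 + l3) 78 = true :=
    Nat.ble_eq_true_of_le (by omega)
  simp only [b3, Bool.not_true, Bool.false_or] at h
  have h := (allLt_iff _ _).1 h a4 (by omega)
  have b4 : Nat.ble (10 * (a6 + l6) + 6 * (a5 + l5) + 3 * (a4 + l4) + l3) 78 = true :=
    Nat.ble_eq_true_of_le (by omega)
  simp only [b4, Bool.not_true, Bool.false_or] at h
  have c1 : 13 - (5 * l6 + 4 * l5 + 3 * l4 + 2 * l3) = l2 := by omega
  have c2 : 78 - (10 * (a6 + l6) + 6 * (a5 + l5) + 3 * (a4 + l4) + l3) = a3 := by omega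
  rw [c1, c2] at h
  exact h

lemma chk_use {l2 l3 l4 l5 l6 a3 a4 a5 a6 : ℕ} (h : chk l2 l3 l4 l5 l6 a3 a4 a5 a6 = true)
    (h1 : 3 + (a5 + l5) + 2 * (a6 + l6) ≤ a3 + l3)
    (h2 : 3 + a5 + 2 * a6 + l4 + 2 * l5 + 3 * l6 ≤ a3 + l2) :
    (1 ≤ a6 → 187938 * a4 + 683196 * a5 + 1241100 * a6 ≤
      244674 * a3 + 494076 * l2 + 618186 * l3 + 679650 * l4 + 371148 * l5) ∧
    10140 * a4 + 390260 * a5 + 773760 * a6 ≤
      366600 * a3 + 124020 * l2 + 54600 * l4 + 131430 * l5 := by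
  unfold chk at h
  rw [Nat.ble_eq_true_of_le h1, Nat.ble_eq_true_of_le h2] at h
  simp only [Bool.not_true, Bool.false_or, Bool.and_eq_true, Bool.or_eq_true] at h
  refine ⟨fun h6 => ?_, Nat.le_of_ble_eq_true h.2⟩
  rcases h.1 with h | h
  · rw [Nat.ble_eq_true_of_le h6] at h
    simp at h
  · exact Nat.le_of_ble_eq_true h

theorem lower14 (S : Cfg α) {C : Finset α} (hC : C ∈ S.circ)
    (hm : ∀ b ∈ S.B, b.card ≤ C.card) (hm' : ∀ b ∈ S.L, b.card ≤ C.card)
    (hn : S.P.card = 14) (hC6 : C.card = 6) : T 14 < cc S := by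
  rw [hC6] at hm hm'
  have key : ∀ p ∈ S.P, (1 ≤ ac S p 6 → (0 : ℤ) ≤
        ∑ b ∈ S.circ with p ∈ b, aC b.card + ∑ b ∈ S.L with p ∈ b, aL b.card) ∧
      (0 : ℤ) ≤ ∑ b ∈ S.circ with p ∈ b, bC b.card + ∑ b ∈ S.L with p ∈ b, bL b.card := by
    intro p hp
    obtain ⟨r1, r2, r3, r4⟩ := rel6 S hm hm' hp
    rw [hn] at r1 r2
    have h := chk_use (chk_of (l2 := al S p 2) (l3 := al S p 3) (l4 := al S p 4)
      (l5 := al S p 5) (l6 := al S p 6) (a3 := ac S p 3) (a4 := ac S p 4) (a5 := ac S p 5)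
      (a6 := ac S p 6) (by push_cast at r1; omega) (by push_cast at r2; omega))
      (by omega) (by omega)
    rw [sum_circ S p 6 hm, sum_line S p 6 hm', sum6, sum6, sum_circ S p 6 hm,
      sum_line S p 6 hm', sum6, sum6, ac_two]
    simp only [aC, aL, bC, bL]
    norm_num
    obtain ⟨ha, hb⟩ := h
    constructor
    · intro h6
      have := ha h6
      zify at this
      linarith
    · zify at hb
      linarith
  have h := caseAT S hC w (by decide) (by decide) (by decide) (by decide) (by decide)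
    (by decide) (by decide) (by rw [hC6]; exact hm) (by rw [hC6]; exact hm') aC aL bC bL 0 0
    (by
      intro p hp
      refine (key p (S.hBP C (mem_sdiff.1 hC).1 hp)).1 ?_
      unfold ac
      exact card_pos.2 ⟨C, mem_filter.2 ⟨mem_filter.2 ⟨hC, hp⟩, hC6⟩⟩)
    (by
      intro p hp
      exact (key p (mem_sdiff.1 hp).1).2)
    (by
      rw [hC6, hn]
      have : ∀ k : ℕ, k < 7 → ∀ j : ℕ, j < 3 → 3 ≤ k → j ≤ k → k ≤ 14 - 6 + j →
          Wc w (k : ℤ) (j : ℤ) + (j : ℤ) * aC k + ((k : ℤ) - j) * bC k ≤ w.D := by decide +kernel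
      intro k j h3 h6 hj hjk hK
      exact this k (by omega) j (by omega) h3 hjk hK)
    (by
      rw [hC6, hn]
      have : ∀ k : ℕ, k < 7 → ∀ j : ℕ, j < 3 → 2 ≤ k → j ≤ k → k ≤ 14 - 6 + j →
          Wl w (k : ℤ) (j : ℤ) + (j : ℤ) * aL k + ((k : ℤ) - j) * bL k ≤ 0 := by decide +kernel
      intro k j h3 h6 hj hjk hK
      exact this k (by omega) j (by omega) h3 hjk hK)
  rw [hC6, hn] at h
  have e1 : R w ((14 : ℕ) : ℤ) ((6 : ℕ) : ℤ) ((6 / 2 : ℕ) : ℤ) - Wc w ((6 : ℕ) : ℤ) ((6 : ℕ) : ℤ) -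
      ((6 : ℕ) : ℤ) * aC 6 > w.D * 71 := by decide +kernel
  have e2 : T 14 = 72 := by decide +kernel
  rw [e2]
  have e3 : w.D = 1843920 := rfl
  rw [e3] at h e1
  omega

end Pool.Agent.TH348.Circ.N14
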