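import Mathlib
import Pool.Agent.TH348.Circ.N14

/-! Lower bounds for few points by multipliers. -/

namespace Pool.Agent.TH348.Circ.Low

open Finset Pool.Agent.Helper543.Count Pool.Agent.Helper543.Bounds Pool.Agent.Helper543.Small

variable {α : Type} [DecidableEq α]

/-- multipliers -/
def tA (n m : ℕ) : Wt :=
  match n, m with
  | 5, 3 => ⟨6, 3, 3, 0, -1, -2, -1, 0, 0, 0, 0, 2, 0, 0⟩
  | 14, 3 => ⟨6, 3, 3, 1, -1, -2, -1, 0, 0, 0, 0, 2, 0, 0⟩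
  | 14, 4 => ⟨48, 6, 6, 2, -3, -6, -3, 2, 2, 3, 3, 0, 0, 0⟩
  | 14, 5 => ⟨315, 36, 36, 12, -35, -70, -35, 46, 46, 35, 35, 0, 0, 0⟩
  | 14, 7 => ⟨522, 89, 64, 13, -58, -116, -58, 40, 90, 58, 58, 0, 45, 0⟩
  | 14, 8 => ⟨360, 120, -30, 4, -55, -65, -10, 0, 0, 55, 10, 0, 0, 0⟩
  | 14, 9 => ⟨60, 30, 0, 1, 0, 0, -3, 0, 0, 0, 0, 0, 30, 60⟩
  | 14, 10 => ⟨24, 12, -6, 1, 0, -12, -2, 0, 0, 0, 0, 0, 0, 0⟩
  | 14, 11 => ⟨6, 3, 0, 1, 0, 0, -1, 0, 0, 0, 0, 0, 3, 6⟩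
  | 14, 12 => ⟨4, 2, -1, 0, 0, -2, 0, 0, 0, 0, 0, 0, 0, 0⟩
  | _, _ => ⟨0, 0, 0, 0, 0, 0, 0, 0, 0, 0, 0, 0, 0, 0⟩

/-- multipliers -/
def tB (n m : ℕ) : Wt :=
  match n, m with
  | 5, 3 => ⟨2, 1, 1, 0, 0, 0, -1, 0, 0, 0, 0, 0, 0, 0⟩
  | 14, 3 => ⟨6, 3, 3, 1, 0, -2, -1, 0, 0, 0, 0, 2, 0, 0⟩
  | 14, 4 => ⟨48, 6, 6, 2, 0, -6, -3, 2, 2, 3, 3, 0, 0, 0⟩
  | 14, 5 => ⟨315, 36, 36, 12, 0, -70, -35, 46, 46, 35, 35, 0, 0, 0⟩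
  | 14, 6 => ⟨144, 27, 9, 5, 0, -24, -16, 18, 22, 8, 16, 0, 0, 0⟩
  | 14, 7 => ⟨210, 100, 5, 2, 0, -5, -5, 0, 5, 0, 5, 0, 105, 0⟩
  | 14, 8 => ⟨120, 60, 0, 1, 0, 0, -4, 0, 0, 0, 0, 0, 60, 0⟩
  | 14, 9 => ⟨60, 30, 0, 1, 0, 0, -3, 0, 0, 0, 0, 0, 30, 0⟩
  | 14, 10 => ⟨24, 12, -6, 1, 0, 0, -2, 0, 0, 0, 0, 0, 0, 0⟩
  | 14, 11 => ⟨6, 3, 0, 1, 0, 0, -1, 0, 0, 0, 0, 0, 3, 0⟩
  | 14, 12 => ⟨4, 2, -1, 0, 0, 0, 0, 0, 0, 0, 0, 0, 0, 0⟩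
  | _, _ => ⟨0, 0, 0, 0, 0, 0, 0, 0, 0, 0, 0, 0, 0, 0⟩

theorem tableA : ∀ m < 13, 3 ≤ m → m ≠ 6 → goodA 14 m (tA 14 m) := by
  decide +kernel

theorem tableB : ∀ m < 13, 3 ≤ m → goodB 14 m (tB 14 m) := by
  decide +kernel

theorem tableA5 : goodA 5 3 (tA 5 3) := by decide +kernel

theorem tableB5 : goodB 5 3 (tB 5 3) := by decide +kernel

/-- a largest block -/
lemma exists_largest (S : Cfg α) (hn : 3 ≤ S.P.card) (hPB : S.P ∉ S.B) :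
    ∃ C ∈ S.B, (∀ b ∈ S.B, b.card ≤ C.card) ∧ (∀ l ∈ S.L, l.card ≤ C.card) ∧ 3 ≤ C.card ∧
      C.card < S.P.card := by
  have hBne : S.B.Nonempty := by
    have h2 : 2 < S.P.card := by omega
    obtain ⟨x, y, z, hx, hy, hz, hxy, hxz, hyz⟩ := two_lt_card_iff.1 h2
    obtain ⟨b, hb, _⟩ := S.ex3 x hx y hy z hz hxy hxz hyz
    exact ⟨b, hb⟩
  obtain ⟨C, hCB, hCmax⟩ := exists_max_image S.B card hBne
  have hC3 := S.hB3 C hCB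
  refine ⟨C, hCB, hCmax, ?_, hC3, ?_⟩
  · intro l hl
    by_cases h3 : 3 ≤ l.card
    · exact hCmax l (S.hLB l hl h3)
    · omega
  · apply card_lt_card
    refine (Finset.ssubset_iff_subset_ne).2 ⟨S.hBP C hCB, fun e => hPB (e ▸ hCB)⟩

/-- lower bound for four, five and fourteen points -/
theorem lower_small (S : Cfg α) (hn : S.P.card = 4 ∨ S.P.card = 5 ∨ S.P.card = 14)
    (hPB : S.P ∉ S.B) : T S.P.card < cc S := by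
  obtain ⟨C, hCB, hm, hm', hC3, hlt⟩ := exists_largest S (by omega) hPB
  by_cases hnear : S.P.card = C.card + 1
  · by_cases hCL : C ∈ S.L
    · exact nearB S hCL hC3 hm hm' hnear
    · exact nearA S (mem_sdiff.2 ⟨hCB, hCL⟩) hm hm' hnear
  rcases hn with hn | hn | hn
  · omega
  · have hc3 : C.card = 3 := by omega
    by_cases hCL : C ∈ S.L
    · exact useB S hCL hC3 hm hm' (tB 5 3) (by rw [hn, hc3]; exact tableB5)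
    · exact useA S (mem_sdiff.2 ⟨hCB, hCL⟩) hm hm' (tA 5 3) (by rw [hn, hc3]; exact tableA5)
  · have hC13 : C.card < 13 := by omega
    by_cases hCL : C ∈ S.L
    · exact useB S hCL hC3 hm hm' (tB 14 C.card) (by rw [hn]; exact tableB _ hC13 hC3)
    · have hCc : C ∈ S.circ := mem_sdiff.2 ⟨hCB, hCL⟩
      by_cases h6 : C.card = 6
      · rw [hn]
        exact N14.lower14 S hCc hm hm' hn h6
      · exact useA S hCc hm hm' (tA 14 C.card) (by rw [hn]; exact tableA _ hC13 hC3 h6)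

end Pool.Agent.TH348.Circ.Low
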