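import Mathlib
import Pool.Agent.Helper543.PlaneC

/-! Complete quadrilaterals: the three pairs of opposite vertices are not pairwise concyclic. -/

namespace Pool.Agent.TH348.Circ

open Finset Pool.Agent.Helper543.Melchior Pool.Agent.Helper543.Blocks

lemma quad_lemma {x x' y y' z z' : Pt} (hyx : y ≠ x) (hzx : z ≠ x) (hy'x : y' ≠ x)
    (hz'x : z' ≠ x) (hzy : z ≠ y) (hz'y' : z' ≠ y') (hx'y : x' ≠ y) (hnc : cr x y y' ≠ 0)
    (h1 : cr x y z = 0) (h2 : cr x y' z' = 0) (h3 : cr x' y z' = 0) (h4 : cr x' y' z = 0)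
    (k1 : G x x' y y' = 0) (k2 : G x x' z z' = 0) (k3 : G y y' z z' = 0) : False := by
  obtain ⟨s, s1, s2⟩ := exists_param hyx.symm h1
  obtain ⟨t, t1, t2⟩ := exists_param hy'x.symm h2
  have hA := nrm_pos hyx
  have hB := nrm_pos hy'x
  have hs0 : s ≠ 0 := by
    rintro rfl
    apply hzx; ext <;> linarith
  have hs1 : s ≠ 1 := by
    rintro rfl
    apply hzy; ext <;> linarith
  have ht0 : t ≠ 0 := by
    rintro rfl
    apply hz'x; ext <;> linarith
  have ht1 : t ≠ 1 := by
    rintro rfl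
    apply hz'y'; ext <;> linarith
  -- coordinates relative to x
  obtain ⟨x1, x2⟩ := x
  obtain ⟨y1, y2⟩ := y
  obtain ⟨z1, z2⟩ := z
  obtain ⟨e1, e2⟩ := x'
  obtain ⟨c1, c2⟩ := y'
  obtain ⟨d1, d2⟩ := z'
  simp only [cr, G, nrm] at *
  obtain ⟨a, rfl⟩ : ∃ a, y1 = x1 + a := ⟨y1 - x1, by ring⟩
  obtain ⟨b, rfl⟩ : ∃ b, y2 = x2 + b := ⟨y2 - x2, by ring⟩
  obtain ⟨c, rfl⟩ : ∃ c, c1 = x1 + c := ⟨c1 - x1, by ring⟩
  obtain ⟨d, rfl⟩ : ∃ d, c2 = x2 + d := ⟨c2 - x2, by ring⟩
  obtain ⟨e, rfl⟩ : ∃ e, e1 = x1 + e := ⟨e1 - x1, by ring⟩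
  obtain ⟨f, rfl⟩ : ∃ f, e2 = x2 + f := ⟨e2 - x2, by ring⟩
  have z1e : z1 = x1 + s * a := by linear_combination s1
  have z2e : z2 = x2 + s * b := by linear_combination s2
  have d1e : d1 = x1 + t * c := by linear_combination t1
  have d2e : d2 = x2 + t * d := by linear_combination t2
  subst z1e z2e d1e d2e
  have hD : a * d - b * c ≠ 0 := by
    intro h; apply hnc; linear_combination h
  have hA' : a ^ 2 + b ^ 2 ≠ 0 := by
    have : a ^ 2 + b ^ 2 = (x1 + a - x1) ^ 2 + (x2 + b - x2) ^ 2 := by ring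
    rw [this]; exact hA.ne'
  have hB' : c ^ 2 + d ^ 2 ≠ 0 := by
    have : c ^ 2 + d ^ 2 = (x1 + c - x1) ^ 2 + (x2 + d - x2) ^ 2 := by ring
    rw [this]; exact hB.ne'
  have hs1' : s - 1 ≠ 0 := sub_ne_zero.2 hs1
  have ht1' : t - 1 ≠ 0 := sub_ne_zero.2 ht1
  have e3 : (s - 1) * (t - 1) * (a * d - b * c) * (t * (c ^ 2 + d ^ 2) - s * (a ^ 2 + b ^ 2)) = 0 := by
    linear_combination (-1) * k3
  have e3' : t * (c ^ 2 + d ^ 2) - s * (a ^ 2 + b ^ 2) = 0 := by
    rcases mul_eq_zero.1 e3 with h | h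
    · exact absurd h (mul_ne_zero (mul_ne_zero hs1' ht1') hD)
    · exact h
  -- p = cross(X,Y'), q = cross(Y,X)
  have e4 : t * (a * d - b * c) - (a * f - b * e) - t * (e * d - f * c) = 0 := by
    linear_combination h3
  have e5 : - s * (a * d - b * c) + (e * d - f * c) + s * (a * f - b * e) = 0 := by
    linear_combination h4
  have e6 : (e ^ 2 + f ^ 2) * (a * d - b * c) - (a * f - b * e) * (c ^ 2 + d ^ 2) -
      (e * d - f * c) * (a ^ 2 + b ^ 2) = 0 := by
    linear_combination k1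
  have e7 : s * t * ((e ^ 2 + f ^ 2) * (a * d - b * c) - t * (a * f - b * e) * (c ^ 2 + d ^ 2) -
      s * (e * d - f * c) * (a ^ 2 + b ^ 2)) = 0 := by
    linear_combination k2
  have e7' : (e ^ 2 + f ^ 2) * (a * d - b * c) - t * (a * f - b * e) * (c ^ 2 + d ^ 2) -
      s * (e * d - f * c) * (a ^ 2 + b ^ 2) = 0 := by
    rcases mul_eq_zero.1 e7 with h | h
    · exact absurd h (mul_ne_zero hs0 ht0)
    · exact h
  generalize hDD : a * d - b * c = D at *
  generalize hpp : e * d - f * c = p at *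
  generalize hqq : a * f - b * e = q at *
  generalize hNN : e ^ 2 + f ^ 2 = N at *
  generalize hAA : a ^ 2 + b ^ 2 = A at *
  generalize hBB : c ^ 2 + d ^ 2 = B at *
  have e8 : B * (s * (t - 1) * q + (s - 1) * t * p) = 0 := by
    linear_combination s * (e6 - e7') - (s - 1) * p * (-1) * e3'
  have e8' : s * (t - 1) * q + (s - 1) * t * p = 0 := by
    rcases mul_eq_zero.1 e8 with h | h
    · exact absurd h hB'
    · exact h
  have e9 : 2 * s * (t - 1) * q = 0 := by
    linear_combination e8' + (s - 1) * e4 + e4 + t * e5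
  have hq : q = 0 := by
    rcases mul_eq_zero.1 e9 with h | h
    · exact absurd h (mul_ne_zero (mul_ne_zero two_ne_zero hs0) ht1')
    · exact h
  have hp : p = D := by
    have : t * (D - p) = 0 := by rw [hq] at e4; linear_combination e4
    rcases mul_eq_zero.1 this with h | h
    · exact absurd h ht0
    · linarith
  have g1 : (e - a) * D = 0 := by
    rw [← hDD]
    have h5 : e * d - f * c = a * d - b * c := by rw [hpp, hDD, hp]
    have h6 : a * f - b * e = 0 := by rw [hqq, hq]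
    linear_combination a * h5 + c * h6
  have g2 : (f - b) * D = 0 := by
    rw [← hDD]
    have h5 : e * d - f * c = a * d - b * c := by rw [hpp, hDD, hp]
    have h6 : a * f - b * e = 0 := by rw [hqq, hq]
    linear_combination b * h5 + d * h6
  have g1' : e = a := by
    rcases mul_eq_zero.1 g1 with h | h
    · linarith
    · exact absurd h hD
  have g2' : f = b := by
    rcases mul_eq_zero.1 g2 with h | h
    · linarith
    · exact absurd h hD
  apply hx'y
  rw [g1', g2']

end Pool.Agent.TH348.Circ
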