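import Mathlib
import Pool.Agent.TH348.Circ.Low
import Pool.Agent.TH348.Circ.Quad

/-! Six points. -/

namespace Pool.Agent.TH348.Circ.Six

open Finset Pool.Agent.Helper543.Count Pool.Agent.Helper543.Bounds Pool.Agent.Helper543.Small
open Pool.Agent.TH348.Circ.Types

variable {α : Type} [DecidableEq α]

/-- validity of multipliers around a circle, general target -/
def goodAt (t : ℤ) (n m : ℕ) (w : Wt) : Prop :=
  (0 ≤ w.D ∧ 0 ≤ w.u1 ∧ 0 ≤ w.u2 ∧ 0 ≤ w.u3 ∧ 0 ≤ w.u4 ∧ 0 ≤ w.u5 ∧ 0 ≤ w.v1 ∧ 0 ≤ w.v2) ∧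
  (∀ k < m + 1, ∀ j < 3, 3 ≤ k → j ≤ k → k ≤ n - m + j → Wc w k j ≤ w.D) ∧
  (∀ k < m + 1, ∀ j < 3, 2 ≤ k → j ≤ k → k ≤ n - m + j → Wl w k j ≤ 0) ∧
  w.D * (t - 1) < R w n m ((m / 2 : ℕ) : ℤ) - Wc w m m

/-- validity of multipliers around a line, general target -/
def goodBt (t : ℤ) (n m : ℕ) (w : Wt) : Prop :=
  (0 ≤ w.D ∧ 0 ≤ w.u1 ∧ 0 ≤ w.u2 ∧ 0 ≤ w.u3 ∧ 0 ≤ w.u4 ∧ 0 ≤ w.u5 ∧ 0 ≤ w.v1 ∧ 0 ≤ w.v2) ∧
  (∀ k < m + 1, ∀ j < 3, 3 ≤ k → j ≤ k → k ≤ n - m + j → Wc w k j ≤ w.D) ∧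
  (∀ k < m + 1, ∀ j < 2, 2 ≤ k → j ≤ k → k ≤ n - m + j → Wl w k j ≤ 0) ∧
  w.D * t < R w n m ((m / 2 : ℕ) : ℤ) - Wl w m m

instance (t : ℤ) (n m : ℕ) (w : Wt) : Decidable (goodAt t n m w) := by
  unfold goodAt
  refine @instDecidableAnd _ _ ?_ (@instDecidableAnd _ _ ?_ (@instDecidableAnd _ _ ?_ ?_)) <;>
    infer_instance
instance (t : ℤ) (n m : ℕ) (w : Wt) : Decidable (goodBt t n m w) := by
  unfold goodBt
  refine @instDecidableAnd _ _ ?_ (@instDecidableAnd _ _ ?_ (@instDecidableAnd _ _ ?_ ?_)) <;>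
    infer_instance

theorem useAt (t : ℤ) (S : Cfg α) {C : Finset α} (hC : C ∈ S.circ)
    (hm : ∀ b ∈ S.B, b.card ≤ C.card) (hm' : ∀ b ∈ S.L, b.card ≤ C.card) (w : Wt)
    (hg : goodAt t S.P.card C.card w) : t < cc S := by
  obtain ⟨⟨h0, h1, h2, h3, h4, h5, h6, h7⟩, hc, hl, hfin⟩ := hg
  have h := caseA S hC w h1 h2 h3 h4 h5 h6 h7 hm hm'
    (fun k j hk hkm hj hjk hK => hc k (by omega) j (by omega) hk hjk hK)
    (fun k j hk hkm hj hjk hK => hl k (by omega) j (by omega) hk hjk hK)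
  by_contra hcon
  push Not at hcon
  nlinarith [mul_le_mul_of_nonneg_left hcon h0]

theorem useBt (t : ℤ) (S : Cfg α) {C : Finset α} (hC : C ∈ S.L) (hC3 : 3 ≤ C.card)
    (hm : ∀ b ∈ S.B, b.card ≤ C.card) (hm' : ∀ b ∈ S.L, b.card ≤ C.card) (w : Wt)
    (hg : goodBt t S.P.card C.card w) : t < cc S := by
  obtain ⟨⟨h0, h1, h2, h3, h4, h5, h6, h7⟩, hc, hl, hfin⟩ := hg
  have h := caseB S hC hC3 w h1 h2 h3 h4 h5 h6 h7 hm hm'
    (fun k j hk hkm hj hjk hK => hc k (by omega) j (by omega) hk hjk hK)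
    (fun k j hk hkm hj hjk hK => hl k (by omega) j (by omega) hk hjk hK)
  by_contra hcon
  push Not at hcon
  nlinarith [mul_le_mul_of_nonneg_left hcon h0]

lemma gc_zero (S : Cfg α) {M : ℕ} (hM : ∀ b ∈ S.B, b.card ≤ M) {k : ℕ} (hk : M < k) :
    gc S k = 0 := by
  unfold gc
  rw [card_eq_zero, filter_eq_empty_iff]
  intro b hb h2
  have := hM b (mem_sdiff.1 hb).1
  omega

lemma gl_zero (S : Cfg α) {M : ℕ} (hM : ∀ b ∈ S.L, b.card ≤ M) {k : ℕ} (hk : M < k) :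
    gl S k = 0 := by
  unfold gl
  rw [card_eq_zero, filter_eq_empty_iff]
  intro b hb h2
  have := hM b hb
  omega

lemma ac_zero (S : Cfg α) {M : ℕ} (hM : ∀ b ∈ S.B, b.card ≤ M) {k : ℕ} (hk : M < k) (p : α) :
    ac S p k = 0 := by
  unfold ac
  rw [card_eq_zero, filter_eq_empty_iff]
  intro b hb h2
  have := hM b (mem_sdiff.1 (mem_filter.1 hb).1).1
  omega

lemma al_zero (S : Cfg α) {M : ℕ} (hM : ∀ b ∈ S.L, b.card ≤ M) {k : ℕ} (hk : M < k) (p : α) :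
    al S p k = 0 := by
  unfold al
  rw [card_eq_zero, filter_eq_empty_iff]
  intro b hb h2
  have := hM b (mem_filter.1 hb).1
  omega

/-- the local relations, sizes at most four -/
lemma rel4 (S : Cfg α) (hM : ∀ b ∈ S.B, b.card ≤ 4) (hM' : ∀ b ∈ S.L, b.card ≤ 4) {p : α}
    (hp : p ∈ S.P) :
    ((al S p 2 : ℤ) + 2 * al S p 3 + 3 * al S p 4 = (S.P.card : ℤ) - 1) ∧
    (2 * ((ac S p 3 : ℤ) + al S p 3) + 6 * ((ac S p 4 : ℤ) + al S p 4) =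
      ((S.P.card : ℤ) - 1) * ((S.P.card : ℤ) - 2)) ∧
    (3 ≤ (ac S p 3 : ℤ) + al S p 3) ∧
    (3 + (al S p 4 : ℤ) ≤ (ac S p 3 : ℤ) + al S p 2) := by
  obtain ⟨r1, r2, r3, r4⟩ := rel6 S (fun b hb => (hM b hb).trans (by norm_num))
    (fun b hb => (hM' b hb).trans (by norm_num)) hp
  rw [al_zero S hM' (show 4 < 5 by norm_num) p, al_zero S hM' (show 4 < 6 by norm_num) p] at r1
  rw [ac_zero S hM (show 4 < 5 by norm_num) p, ac_zero S hM (show 4 < 6 by norm_num) p,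
    al_zero S hM' (show 4 < 5 by norm_num) p, al_zero S hM' (show 4 < 6 by norm_num) p] at r2 r3 r4
  push_cast at r1 r2 r3 r4
  refine ⟨?_, ?_, ?_, ?_⟩ <;> linarith

/-- the global relations, sizes at most four -/
lemma glob4 (S : Cfg α) (hM : ∀ b ∈ S.B, b.card ≤ 4) (hM' : ∀ b ∈ S.L, b.card ≤ 4) :
    ((gl S 2 : ℤ) + 3 * gl S 3 + 6 * gl S 4) * 2 = (S.P.card : ℤ) * (S.P.card - 1) ∧
    (((gc S 3 : ℤ) + gl S 3) + 4 * ((gc S 4 : ℤ) + gl S 4)) * 6 =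
      (S.P.card : ℤ) * ((S.P.card : ℤ) - 1) * ((S.P.card : ℤ) - 2) ∧
    (3 + (gl S 4 : ℤ) ≤ gl S 2) ∧
    cc S = (gc S 3 : ℤ) + gc S 4 := by
  obtain ⟨r1, r2, r3, r4⟩ := glob6 S (fun b hb => (hM b hb).trans (by norm_num))
    (fun b hb => (hM' b hb).trans (by norm_num))
  rw [gl_zero S hM' (show 4 < 5 by norm_num), gl_zero S hM' (show 4 < 6 by norm_num)] at r1 r3
  rw [gc_zero S hM (show 4 < 5 by norm_num), gc_zero S hM (show 4 < 6 by norm_num),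
    gl_zero S hM' (show 4 < 5 by norm_num), gl_zero S hM' (show 4 < 6 by norm_num)] at r2
  rw [gc_zero S hM (show 4 < 5 by norm_num), gc_zero S hM (show 4 < 6 by norm_num)] at r4
  push_cast at r1 r2 r3 r4
  refine ⟨?_, ?_, ?_, ?_⟩ <;> linarith

theorem counts6 (S : Cfg α) (hn : S.P.card = 6) (hM : ∀ b ∈ S.B, b.card ≤ 4)
    (hM' : ∀ b ∈ S.L, b.card ≤ 4) (hc : cc S ≤ 7) :
    gc S 4 = 3 ∧ gl S 3 = 4 ∧
      ∀ p ∈ S.P, al S p 2 = 1 ∧ al S p 3 = 2 ∧ al S p 4 = 0 := by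
  obtain ⟨g1, g2, g3, g4⟩ := glob4 S hM hM'
  rw [hn] at g1 g2
  push_cast at g1 g2
  have hloc : ∀ p ∈ S.P, (4 : ℤ) ≤ (ac S p 3 : ℤ) + al S p 3 := by
    intro p hp
    obtain ⟨r1, r2, r3, r4⟩ := rel4 S hM hM' hp
    rw [hn] at r1 r2
    push_cast at r1 r2
    omega
  have hsum := sum_le_sum hloc
  rw [sum_const, sum_add_distrib, sum_ac, sum_al, hn] at hsum
  simp only [nsmul_eq_mul] at hsum
  push_cast at hsum
  have hfin : gc S 4 = 3 ∧ gl S 3 = 4 ∧ gl S 4 = 0 := by omega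
  obtain ⟨f1, f2, f3⟩ := hfin
  refine ⟨f1, f2, ?_⟩
  have h4 : ∀ p ∈ S.P, al S p 4 = 0 := by
    have := sum_al S 4
    rw [f3] at this
    push_cast at this
    have h0 := (sum_eq_zero_iff_of_nonneg (fun p _ => by positivity)).1 this
    intro p hp
    exact_mod_cast h0 p hp
  have h3le : ∀ p ∈ S.P, (al S p 3 : ℤ) ≤ 2 := by
    intro p hp
    obtain ⟨r1, r2, r3, r4⟩ := rel4 S hM hM' hp
    rw [hn] at r1
    push_cast at r1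
    omega
  have h3 : ∀ p ∈ S.P, (al S p 3 : ℤ) = 2 := by
    apply (sum_eq_sum_iff_of_le h3le).1
    rw [sum_al, sum_const, hn, f2]
    norm_num
  intro p hp
  obtain ⟨r1, r2, r3, r4⟩ := rel4 S hM hM' hp
  rw [hn] at r1
  push_cast at r1
  have a1 := h4 p hp
  have a2 := h3 p hp
  omega

lemma card_of_al_zero (S : Cfg α) {p : α} {k : ℕ} (h : al S p k = 0) {l : Finset α}
    (hl : l ∈ S.L) (hp : p ∈ l) : l.card ≠ k := by
  intro hk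
  unfold al at h
  rw [card_eq_zero, filter_eq_empty_iff] at h
  exact h (mem_filter.2 ⟨hl, hp⟩) hk

lemma line_card3 (S : Cfg α) (hM' : ∀ b ∈ S.L, b.card ≤ 4) {p p' q : α} (hpP : p ∈ S.P)
    (hp'P : p' ∈ S.P) (h2 : al S p 2 = 1) (h4 : al S p 4 = 0) (hpp' : p ≠ p') (hqp : q ≠ p)
    (hqp' : q ≠ p') (hno : ∀ l ∈ S.L, l.card = 3 → ¬ (p ∈ l ∧ p' ∈ l)) {l : Finset α}
    (hl : l ∈ S.L) (hpl : p ∈ l) (hql : q ∈ l) : l.card = 3 := by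
  have c1 := card_of_al_zero S h4 hl hpl
  have c2 := hM' l hl
  have c3 := S.hL2 l hl
  by_contra hcon
  have hc2 : l.card = 2 := by omega
  obtain ⟨m, hm, hpm, hp'm⟩ := S.ex2 p hpP p' hp'P hpp'
  have d1 := card_of_al_zero S h4 hm hpm
  have d2 := hM' m hm
  have d3 := S.hL2 m hm
  have d4 : m.card ≠ 3 := fun e => hno m hm e ⟨hpm, hp'm⟩
  have hm2 : m.card = 2 := by omega
  unfold al at h2
  obtain ⟨a, ha⟩ := card_eq_one.1 h2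
  have hla : l = a := by
    have : l ∈ ({a} : Finset (Finset α)) := by
      rw [← ha]; exact mem_filter.2 ⟨mem_filter.2 ⟨hl, hpl⟩, hc2⟩
    exact mem_singleton.1 this
  have hma : m = a := by
    have : m ∈ ({a} : Finset (Finset α)) := by
      rw [← ha]; exact mem_filter.2 ⟨mem_filter.2 ⟨hm, hpm⟩, hm2⟩
    exact mem_singleton.1 this
  have hlm : l = m := by rw [hla, hma]
  have hsub : ({p, p', q} : Finset α) ⊆ l := by
    intro x hx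
    rcases mem_insert.1 hx with rfl | hx
    · exact hpl
    · rcases mem_insert.1 hx with rfl | hx
      · rw [hlm]; exact hp'm
      · rw [mem_singleton.1 hx]; exact hql
  have := card_le_card hsub
  rw [card_insert_of_notMem, card_insert_of_notMem, card_singleton] at this
  · omega
  · rw [mem_singleton]; exact hqp'.symm
  · rw [mem_insert, mem_singleton]; push Not; exact ⟨hpp', hqp.symm⟩

lemma union_eq (S : Cfg α) (hn : S.P.card = 6) {A A' : Finset α} (hA : A ∈ S.circ)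
    (hA' : A' ∈ S.circ) (hne : A ≠ A') (hc : A.card = 4) (hc' : A'.card = 4) {u : α}
    (hu : u ∈ S.P \ A) (hu' : u ∈ S.P \ A') : False := by
  have hB := (mem_sdiff.1 hA).1
  have hB' := (mem_sdiff.1 hA').1
  have h1 := inter_le_two S hB hB' hne
  have h2 := card_union_add_card_inter A A'
  have h3 : A ∪ A' ⊆ S.P.erase u := by
    intro x hx
    rw [mem_erase]
    rcases mem_union.1 hx with h | h
    · exact ⟨fun e => (mem_sdiff.1 hu).2 (e ▸ h), S.hBP A hB h⟩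
    · exact ⟨fun e => (mem_sdiff.1 hu').2 (e ▸ h), S.hBP A' hB' h⟩
  have h4 := card_le_card h3
  rw [card_erase_of_mem (mem_sdiff.1 hu).1] at h4
  omega

/-- a collinear triple meets the complement of every circle of four points -/
lemma meets (S : Cfg α) {A l : Finset α} (hA : A ∈ S.circ) (hl : l ∈ S.L)
    (h3 : l.card = 3) {x x' : α} (hD : S.P \ A = {x, x'}) : x ∈ l ∨ x' ∈ l := by
  have hlB := S.hLB l hl (by omega)
  have hne : l ≠ A := fun e => (mem_sdiff.1 hA).2 (e ▸ hl)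
  have h1 := inter_le_two S hlB (mem_sdiff.1 hA).1 hne
  by_contra hcon
  push Not at hcon
  have hsub : l ⊆ A := by
    intro u hu
    by_contra hA'
    have : u ∈ S.P \ A := mem_sdiff.2 ⟨S.hLP l hl hu, hA'⟩
    rw [hD, mem_insert, mem_singleton] at this
    rcases this with rfl | rfl
    · exact hcon.1 hu
    · exact hcon.2 hu
  rw [inter_eq_left.2 hsub] at h1
  omega

/-- the structure of six points with seven circles -/
theorem struct6 (S : Cfg α) (hn : S.P.card = 6) (hM : ∀ b ∈ S.B, b.card ≤ 4)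
    (hM' : ∀ b ∈ S.L, b.card ≤ 4) (hc : cc S ≤ 7) :
    ∃ x x' y y' z z' : α, (x ≠ x' ∧ x ≠ y ∧ x ≠ y' ∧ x ≠ z ∧ x ≠ z' ∧ x' ≠ y ∧ y ≠ y' ∧
      y ≠ z ∧ y' ≠ z' ∧ x' ≠ z ∧ x' ≠ z' ∧ y ≠ z' ∧ z ≠ z' ∧ x' ≠ y' ∧ y' ≠ z) ∧
      (∃ A ∈ S.circ, x ∈ A ∧ x' ∈ A ∧ y ∈ A ∧ y' ∈ A) ∧
      (∃ A ∈ S.circ, x ∈ A ∧ x' ∈ A ∧ z ∈ A ∧ z' ∈ A) ∧
      (∃ A ∈ S.circ, y ∈ A ∧ y' ∈ A ∧ z ∈ A ∧ z' ∈ A) ∧
      (∃ l ∈ S.L, x ∈ l ∧ y ∈ l ∧ z ∈ l ∧ y' ∉ l) ∧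
      (∃ l ∈ S.L, x ∈ l ∧ y' ∈ l ∧ z' ∈ l) ∧
      (∃ l ∈ S.L, x' ∈ l ∧ y ∈ l ∧ z' ∈ l) ∧
      (∃ l ∈ S.L, x' ∈ l ∧ y' ∈ l ∧ z ∈ l) := by
  obtain ⟨k1, k2, hloc⟩ := counts6 S hn hM hM' hc
  unfold gc at k1
  obtain ⟨A1, A2, A3, h12, h13, h23, hF⟩ := card_eq_three.1 k1
  have m1 : A1 ∈ S.circ ∧ A1.card = 4 := by
    have h : A1 ∈ S.circ.filter (fun b => b.card = 4) := by rw [hF]; simp
    exact mem_filter.1 h
  have m2 : A2 ∈ S.circ ∧ A2.card = 4 := by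
    have h : A2 ∈ S.circ.filter (fun b => b.card = 4) := by rw [hF]; simp
    exact mem_filter.1 h
  have m3 : A3 ∈ S.circ ∧ A3.card = 4 := by
    have h : A3 ∈ S.circ.filter (fun b => b.card = 4) := by rw [hF]; simp
    exact mem_filter.1 h
  have hcard : ∀ A ∈ S.circ, A.card = 4 → (S.P \ A).card = 2 := by
    intro A hA h4
    rw [card_sdiff_of_subset (S.hBP A (mem_sdiff.1 hA).1), hn, h4]
  obtain ⟨x, x', hxx', hD1⟩ := card_eq_two.1 (hcard A1 m1.1 m1.2)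
  obtain ⟨y, y', hyy', hD2⟩ := card_eq_two.1 (hcard A2 m2.1 m2.2)
  obtain ⟨z, z', hzz', hD3⟩ := card_eq_two.1 (hcard A3 m3.1 m3.2)
  have x1 : x ∈ S.P \ A1 := by rw [hD1]; simp
  have x1' : x' ∈ S.P \ A1 := by rw [hD1]; simp
  have y2 : y ∈ S.P \ A2 := by rw [hD2]; simp
  have y2' : y' ∈ S.P \ A2 := by rw [hD2]; simp
  have z3 : z ∈ S.P \ A3 := by rw [hD3]; simp
  have z3' : z' ∈ S.P \ A3 := by rw [hD3]; simp
  have hdis12 : ∀ u, u ∈ S.P \ A1 → u ∈ A2 := by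
    intro u hu
    by_contra h
    exact union_eq S hn m1.1 m2.1 h12 m1.2 m2.2 hu (mem_sdiff.2 ⟨(mem_sdiff.1 hu).1, h⟩)
  have hdis13 : ∀ u, u ∈ S.P \ A1 → u ∈ A3 := by
    intro u hu
    by_contra h
    exact union_eq S hn m1.1 m3.1 h13 m1.2 m3.2 hu (mem_sdiff.2 ⟨(mem_sdiff.1 hu).1, h⟩)
  have hdis21 : ∀ u, u ∈ S.P \ A2 → u ∈ A1 := by
    intro u hu
    by_contra h
    exact union_eq S hn m1.1 m2.1 h12 m1.2 m2.2 (mem_sdiff.2 ⟨(mem_sdiff.1 hu).1, h⟩) hu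
  have hdis23 : ∀ u, u ∈ S.P \ A2 → u ∈ A3 := by
    intro u hu
    by_contra h
    exact union_eq S hn m2.1 m3.1 h23 m2.2 m3.2 hu (mem_sdiff.2 ⟨(mem_sdiff.1 hu).1, h⟩)
  have hdis31 : ∀ u, u ∈ S.P \ A3 → u ∈ A1 := by
    intro u hu
    by_contra h
    exact union_eq S hn m1.1 m3.1 h13 m1.2 m3.2 (mem_sdiff.2 ⟨(mem_sdiff.1 hu).1, h⟩) hu
  have hdis32 : ∀ u, u ∈ S.P \ A3 → u ∈ A2 := by
    intro u hu
    by_contra h
    exact union_eq S hn m2.1 m3.1 h23 m2.2 m3.2 (mem_sdiff.2 ⟨(mem_sdiff.1 hu).1, h⟩) hu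
  have ne12 : ∀ u ∈ S.P \ A1, ∀ v ∈ S.P \ A2, u ≠ v := by
    rintro u hu v hv rfl
    exact (mem_sdiff.1 hv).2 (hdis12 u hu)
  have ne13 : ∀ u ∈ S.P \ A1, ∀ v ∈ S.P \ A3, u ≠ v := by
    rintro u hu v hv rfl
    exact (mem_sdiff.1 hv).2 (hdis13 u hu)
  have ne23 : ∀ u ∈ S.P \ A2, ∀ v ∈ S.P \ A3, u ≠ v := by
    rintro u hu v hv rfl
    exact (mem_sdiff.1 hv).2 (hdis23 u hu)
  -- a collinear triple has exactly one point from each pair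
  have hone : ∀ l ∈ S.L, l.card = 3 → ¬ (x ∈ l ∧ x' ∈ l) ∧ ¬ (y ∈ l ∧ y' ∈ l) ∧
      ¬ (z ∈ l ∧ z' ∈ l) := by
    intro l hl h3
    have t1 := meets S m1.1 hl h3 hD1
    have t2 := meets S m2.1 hl h3 hD2
    have t3 := meets S m3.1 hl h3 hD3
    have aux : ∀ a b c d : α, a ∈ l → b ∈ l → c ∈ l → d ∈ l → a ≠ b → a ≠ c → a ≠ d → b ≠ c →
        b ≠ d → c ≠ d → False := by
      intro a b c d ha hb hc hd n1 n2 n3 n4 n5 n6
      have hsub : ({a, b, c, d} : Finset α) ⊆ l := by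
        intro u hu
        simp only [mem_insert, mem_singleton] at hu
        rcases hu with rfl | rfl | rfl | rfl <;> assumption
      have := card_le_card hsub
      rw [card_insert_of_notMem (by simp [n1, n2, n3]), card_insert_of_notMem (by simp [n4, n5]),
        card_insert_of_notMem (by simp [n6]), card_singleton] at this
      omega
    refine ⟨?_, ?_, ?_⟩
    · rintro ⟨ha, hb⟩
      rcases t2 with h2 | h2 <;> rcases t3 with h3 | h3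
      · exact aux x x' y z ha hb h2 h3 hxx' (ne12 _ x1 _ y2) (ne13 _ x1 _ z3) (ne12 _ x1' _ y2)
          (ne13 _ x1' _ z3) (ne23 _ y2 _ z3)
      · exact aux x x' y z' ha hb h2 h3 hxx' (ne12 _ x1 _ y2) (ne13 _ x1 _ z3') (ne12 _ x1' _ y2)
          (ne13 _ x1' _ z3') (ne23 _ y2 _ z3')
      · exact aux x x' y' z ha hb h2 h3 hxx' (ne12 _ x1 _ y2') (ne13 _ x1 _ z3) (ne12 _ x1' _ y2')
          (ne13 _ x1' _ z3) (ne23 _ y2' _ z3)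
      · exact aux x x' y' z' ha hb h2 h3 hxx' (ne12 _ x1 _ y2') (ne13 _ x1 _ z3')
          (ne12 _ x1' _ y2') (ne13 _ x1' _ z3') (ne23 _ y2' _ z3')
    · rintro ⟨ha, hb⟩
      rcases t1 with h2 | h2 <;> rcases t3 with h3 | h3
      · exact aux x y y' z h2 ha hb h3 (ne12 _ x1 _ y2) (ne12 _ x1 _ y2') (ne13 _ x1 _ z3) hyy'
          (ne23 _ y2 _ z3) (ne23 _ y2' _ z3)
      · exact aux x y y' z' h2 ha hb h3 (ne12 _ x1 _ y2) (ne12 _ x1 _ y2') (ne13 _ x1 _ z3') hyy'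
          (ne23 _ y2 _ z3') (ne23 _ y2' _ z3')
      · exact aux x' y y' z h2 ha hb h3 (ne12 _ x1' _ y2) (ne12 _ x1' _ y2') (ne13 _ x1' _ z3) hyy'
          (ne23 _ y2 _ z3) (ne23 _ y2' _ z3)
      · exact aux x' y y' z' h2 ha hb h3 (ne12 _ x1' _ y2) (ne12 _ x1' _ y2') (ne13 _ x1' _ z3')
          hyy' (ne23 _ y2 _ z3') (ne23 _ y2' _ z3')
    · rintro ⟨ha, hb⟩
      rcases t1 with h2 | h2 <;> rcases t2 with h3 | h3
      · exact aux x y z z' h2 h3 ha hb (ne12 _ x1 _ y2) (ne13 _ x1 _ z3) (ne13 _ x1 _ z3')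
          (ne23 _ y2 _ z3) (ne23 _ y2 _ z3') hzz'
      · exact aux x y' z z' h2 h3 ha hb (ne12 _ x1 _ y2') (ne13 _ x1 _ z3) (ne13 _ x1 _ z3')
          (ne23 _ y2' _ z3) (ne23 _ y2' _ z3') hzz'
      · exact aux x' y z z' h2 h3 ha hb (ne12 _ x1' _ y2) (ne13 _ x1' _ z3) (ne13 _ x1' _ z3')
          (ne23 _ y2 _ z3) (ne23 _ y2 _ z3') hzz'
      · exact aux x' y' z z' h2 h3 ha hb (ne12 _ x1' _ y2') (ne13 _ x1' _ z3) (ne13 _ x1' _ z3')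
          (ne23 _ y2' _ z3) (ne23 _ y2' _ z3') hzz'
  have hxP := (mem_sdiff.1 x1).1
  have hxP' := (mem_sdiff.1 x1').1
  have hyP := (mem_sdiff.1 y2).1
  have hyP' := (mem_sdiff.1 y2').1
  -- lines through a point of the first pair and a point of the second pair
  have lx : ∀ l ∈ S.L, x ∈ l → ∀ q, q ∈ l → q ≠ x → q ≠ x' → l.card = 3 := by
    intro l hl hxl q hq n1 n2
    exact line_card3 S hM' hxP hxP' (hloc x hxP).1 (hloc x hxP).2.2 hxx' n1 n2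
      (fun l hl h3 => (hone l hl h3).1) hl hxl hq
  have lx' : ∀ l ∈ S.L, x' ∈ l → ∀ q, q ∈ l → q ≠ x' → q ≠ x → l.card = 3 := by
    intro l hl hxl q hq n1 n2
    exact line_card3 S hM' hxP' hxP (hloc x' hxP').1 (hloc x' hxP').2.2 hxx'.symm n1 n2
      (fun l hl h3 h => (hone l hl h3).1 ⟨h.2, h.1⟩) hl hxl hq
  obtain ⟨l1, hl1, a1, b1⟩ := S.ex2 x hxP y hyP (ne12 _ x1 _ y2)
  obtain ⟨l2, hl2, a2, b2⟩ := S.ex2 x hxP y' hyP' (ne12 _ x1 _ y2')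
  obtain ⟨l3, hl3, a3, b3⟩ := S.ex2 x' hxP' y hyP (ne12 _ x1' _ y2)
  obtain ⟨l4, hl4, a4, b4⟩ := S.ex2 x' hxP' y' hyP' (ne12 _ x1' _ y2')
  have c1 := lx l1 hl1 a1 y b1 (ne12 _ x1 _ y2).symm (ne12 _ x1' _ y2).symm
  have c2 := lx l2 hl2 a2 y' b2 (ne12 _ x1 _ y2').symm (ne12 _ x1' _ y2').symm
  have c3 := lx' l3 hl3 a3 y b3 (ne12 _ x1' _ y2).symm (ne12 _ x1 _ y2).symm
  have c4 := lx' l4 hl4 a4 y' b4 (ne12 _ x1' _ y2').symm (ne12 _ x1 _ y2').symm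
  have o1 := hone l1 hl1 c1
  have o2 := hone l2 hl2 c2
  have o3 := hone l3 hl3 c3
  have o4 := hone l4 hl4 c4
  have n12 : l1 ≠ l2 := fun e => o1.2.1 ⟨b1, e ▸ b2⟩
  have n13 : l1 ≠ l3 := fun e => o1.1 ⟨a1, e ▸ a3⟩
  have n24 : l2 ≠ l4 := fun e => o2.1 ⟨a2, e ▸ a4⟩
  have n34 : l3 ≠ l4 := fun e => o3.2.1 ⟨b3, e ▸ b4⟩
  have d1 := meets S m3.1 hl1 c1 hD3
  have d2 := meets S m3.1 hl2 c2 hD3
  have d3 := meets S m3.1 hl3 c3 hD3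
  have d4 := meets S m3.1 hl4 c4 hD3
  have u12 : ∀ u, u ≠ x → u ∈ l1 → u ∈ l2 → False := fun u hu h1 h2 =>
    n12 (S.un2 l1 hl1 l2 hl2 x u hu.symm a1 h1 a2 h2)
  have u13 : ∀ u, u ≠ y → u ∈ l1 → u ∈ l3 → False := fun u hu h1 h2 =>
    n13 (S.un2 l1 hl1 l3 hl3 y u hu.symm b1 h1 b3 h2)
  have u24 : ∀ u, u ≠ y' → u ∈ l2 → u ∈ l4 → False := fun u hu h1 h2 =>
    n24 (S.un2 l2 hl2 l4 hl4 y' u hu.symm b2 h1 b4 h2)
  have e1 : ∃ A ∈ S.circ, x ∈ A ∧ x' ∈ A ∧ y ∈ A ∧ y' ∈ A :=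
    ⟨A3, m3.1, hdis13 x x1, hdis13 x' x1', hdis23 y y2, hdis23 y' y2'⟩
  have zx := (ne13 _ x1 _ z3).symm
  have zx' := (ne13 _ x1 _ z3').symm
  have zy := (ne23 _ y2 _ z3).symm
  have zy' := (ne23 _ y2 _ z3').symm
  have zy2 := (ne23 _ y2' _ z3).symm
  have zy2' := (ne23 _ y2' _ z3').symm
  rcases d1 with h | h
  · have h2 : z' ∈ l2 := d2.resolve_left (fun h' => u12 z zx h h')
    have h3 : z' ∈ l3 := d3.resolve_left (fun h' => u13 z zy h h')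
    have h4 : z ∈ l4 := d4.resolve_right (fun h' => u24 z' zy2' h2 h')
    exact ⟨x, x', y, y', z, z', ⟨hxx', ne12 _ x1 _ y2, ne12 _ x1 _ y2', ne13 _ x1 _ z3,
      ne13 _ x1 _ z3', ne12 _ x1' _ y2, hyy', ne23 _ y2 _ z3, ne23 _ y2' _ z3',
      ne13 _ x1' _ z3, ne13 _ x1' _ z3', ne23 _ y2 _ z3', hzz', ne12 _ x1' _ y2',
      ne23 _ y2' _ z3⟩, e1,
      ⟨A2, m2.1, hdis12 x x1, hdis12 x' x1', hdis32 z z3, hdis32 z' z3'⟩,
      ⟨A1, m1.1, hdis21 y y2, hdis21 y' y2', hdis31 z z3, hdis31 z' z3'⟩,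
      ⟨l1, hl1, a1, b1, h, fun h' => o1.2.1 ⟨b1, h'⟩⟩, ⟨l2, hl2, a2, b2, h2⟩,
      ⟨l3, hl3, a3, b3, h3⟩, ⟨l4, hl4, a4, b4, h4⟩⟩
  · have h2 : z ∈ l2 := d2.resolve_right (fun h' => u12 z' zx' h h')
    have h3 : z ∈ l3 := d3.resolve_right (fun h' => u13 z' zy' h h')
    have h4 : z' ∈ l4 := d4.resolve_left (fun h' => u24 z zy2 h2 h')
    exact ⟨x, x', y, y', z', z, ⟨hxx', ne12 _ x1 _ y2, ne12 _ x1 _ y2', ne13 _ x1 _ z3',
      ne13 _ x1 _ z3, ne12 _ x1' _ y2, hyy', ne23 _ y2 _ z3', ne23 _ y2' _ z3,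
      ne13 _ x1' _ z3', ne13 _ x1' _ z3, ne23 _ y2 _ z3, hzz'.symm, ne12 _ x1' _ y2',
      ne23 _ y2' _ z3'⟩, e1,
      ⟨A2, m2.1, hdis12 x x1, hdis12 x' x1', hdis32 z' z3', hdis32 z z3⟩,
      ⟨A1, m1.1, hdis21 y y2, hdis21 y' y2', hdis31 z' z3', hdis31 z z3⟩,
      ⟨l1, hl1, a1, b1, h, fun h' => o1.2.1 ⟨b1, h'⟩⟩, ⟨l2, hl2, a2, b2, h2⟩,
      ⟨l3, hl3, a3, b3, h3⟩, ⟨l4, hl4, a4, b4, h4⟩⟩

end Pool.Agent.TH348.Circ.Six
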