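import Mathlib
import Pool.Agent.TH348.Circ.Six

/-! Six points in the plane: at least eight circles. Deleting a point. -/

namespace Pool.Agent.TH348.Circ.Six

open Finset Pool.Agent.Helper543.Melchior Pool.Agent.Helper543.Blocks
open Pool.Agent.Helper543.PlaneC
open Pool.Agent.Helper543.Count Pool.Agent.Helper543.Bounds Pool.Agent.Helper543.Small
open Pool.Agent.TH348.Circ.Types

lemma G_of_block {P A : Finset Pt} (hA : A ∈ blocks P) {a b c d : Pt} (ha : a ∈ A) (hb : b ∈ A)
    (hc : c ∈ A) (hd : d ∈ A) (hab : a ≠ b) (hac : a ≠ c) (hbc : b ≠ c) : G a b c d = 0 := by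
  have h := block_third hA ha hb hc hab.symm hac.symm hbc.symm
  rw [h] at hd
  exact (mem_blk.1 hd).2

lemma cr_of_line {P l : Finset Pt} (hl : l ∈ lines P) {a b c : Pt} (ha : a ∈ l) (hb : b ∈ l)
    (hc : c ∈ l) (hab : a ≠ b) : cr a b c = 0 := by
  have h := eq_lineOf hl ha hb hab
  rw [h] at hc
  exact (mem_lineOf.1 hc).2

theorem lower6 (P : Finset Pt) (hn : P.card = 6) (hP : ∀ B ∈ blocks P, ∃ x ∈ P, x ∉ B) :
    8 ≤ (blocks P \ lines P).card := by
  have key : (7 : ℤ) < cc (cfg P (by omega) hP) := by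
    set S := cfg P (by omega) hP with hS
    have hnS : S.P.card = 6 := hn
    obtain ⟨C, hCB, hm, hm', hC3, hlt⟩ := Low.exists_largest S (by omega)
      (by
        intro hmem
        obtain ⟨x, hx, hx'⟩ := hP _ hmem
        exact hx' hx)
    have e6 : T 6 = 8 := by decide +kernel
    by_cases hnear : S.P.card = C.card + 1
    · by_cases hCL : C ∈ S.L
      · have := nearB S hCL hC3 hm hm' hnear
        rw [hnS, e6] at this; linarith
      · have := nearA S (mem_sdiff.2 ⟨hCB, hCL⟩) hm hm' hnear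
        rw [hnS, e6] at this; linarith
    have hcases : C.card = 3 ∨ C.card = 4 := by omega
    rcases hcases with h3 | h4
    · by_cases hCL : C ∈ S.L
      · exact useBt 7 S hCL hC3 hm hm' ⟨6, 3, 3, 1, 0, 0, -3, 0, 0, 0, 0, 0, 0, 0⟩
          (by rw [hnS, h3]; decide +kernel)
      · exact useAt 7 S (mem_sdiff.2 ⟨hCB, hCL⟩) hm hm' ⟨6, 3, 3, 1, -1, -2, -1, 0, 0, 0, 0, 2, 0, 0⟩
          (by rw [hnS, h3]; decide +kernel)
    · by_cases hCL : C ∈ S.L
      · exact useBt 7 S hCL hC3 hm hm' ⟨4, 2, -1, 0, 0, 0, 0, 0, 0, 0, 0, 0, 0, 0⟩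
          (by rw [hnS, h4]; decide +kernel)
      · rw [h4] at hm hm'
        by_contra hcon
        push Not at hcon
        obtain ⟨x, x', y, y', z, z', ⟨n1, n2, n3, n4, n5, n6, n7, n8, n9, n10, n11, n12, n13, n14, n15⟩,
          ⟨A1, hA1, a1, a2, a3, a4⟩, ⟨A2, hA2, b1, b2, b3, b4⟩, ⟨A3, hA3, c1, c2, c3, c4⟩,
          ⟨l1, hl1, d1, d2, d3, d4⟩, ⟨l2, hl2, f1, f2, f3⟩, ⟨l3, hl3, g1, g2, g3⟩,
          ⟨l4, hl4, i1, i2, i3⟩⟩ := struct6 S hnS hm hm' hcon
        have hA1' : A1 ∈ blocks P := (mem_sdiff.1 hA1).1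
        have hA2' : A2 ∈ blocks P := (mem_sdiff.1 hA2).1
        have hA3' : A3 ∈ blocks P := (mem_sdiff.1 hA3).1
        have hl1' : l1 ∈ lines P := hl1
        have hl2' : l2 ∈ lines P := hl2
        have hl3' : l3 ∈ lines P := hl3
        have hl4' : l4 ∈ lines P := hl4
        refine quad_lemma (x := x) (x' := x') (y := y) (y' := y') (z := z) (z' := z') n2.symm
          n4.symm n3.symm n5.symm n8.symm n9.symm n6 ?_
          (cr_of_line hl1' d1 d2 d3 n2) (cr_of_line hl2' f1 f2 f3 n3)
          (cr_of_line hl3' g1 g2 g3 n6) (cr_of_line hl4' i1 i2 i3 n14)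
          (G_of_block hA1' a1 a2 a3 a4 n1 n2 n6) (G_of_block hA2' b1 b2 b3 b4 n1 n4 n10)
          (G_of_block hA3' c1 c2 c3 c4 n7 n8 n15)
        intro h0
        apply d4
        have h := eq_lineOf hl1' d1 d2 n2
        rw [h]
        exact mem_lineOf.2 ⟨block_subset hA1' a4, h0⟩
  unfold cc Cfg.circ at key
  have h2 : (7 : ℤ) < ((blocks P \ lines P).card : ℤ) := key
  omega

open Classical in
/-- deleting a point destroys exactly the circles with three points through it -/
theorem delete_le (P : Finset Pt) (q : Pt) :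
    (blocks (P.erase q) \ lines (P.erase q)).card +
      ((blocks P \ lines P).filter (fun b => q ∈ b ∧ b.card = 3)).card ≤
      (blocks P \ lines P).card := by
  have hsub : blocks (P.erase q) \ lines (P.erase q) ⊆
      ((blocks P \ lines P).filter (fun b => ¬ (q ∈ b ∧ b.card = 3))).image
        (fun b => b.erase q) := by
    intro B hB
    obtain ⟨hBb, hBl⟩ := mem_sdiff.1 hB
    obtain ⟨a, ha, b, hb, c, hc, hab, hac, hbc, rfl⟩ := mem_blocks.1 hBb
    have hcr : cr a b c ≠ 0 := by
      intro h0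
      apply hBl
      have := lineOf_mem_lines (S := P.erase q) ha hb hab
      convert this using 1
      ext x
      rw [mem_blk, mem_lineOf, G_of_collinear hab h0 hac.symm hbc.symm]
    have ha' := mem_of_mem_erase ha
    have hb' := mem_of_mem_erase hb
    have hc' := mem_of_mem_erase hc
    have herase : (blk P a b c).erase q = blk (P.erase q) a b c := by
      ext x
      rw [mem_erase, mem_blk, mem_blk, mem_erase]
      tauto
    refine mem_image.2 ⟨blk P a b c, ?_, herase⟩
    have hbl := blk_mem_blocks ha' hb' hc' hab hac hbc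
    refine mem_filter.2 ⟨mem_sdiff.2 ⟨hbl, ?_⟩, ?_⟩
    · intro hl
      exact hcr (cr_of_line hl (blk_mem1 ha') (blk_mem2 hb') (blk_mem3 hc') hab)
    · rintro ⟨hq, h3⟩
      have h4 := block_card hBb
      rw [← herase, card_erase_of_mem hq] at h4
      omega
  have h1 := (card_le_card hsub).trans card_image_le
  have h2 := card_filter_add_card_filter_not (s := blocks P \ lines P)
    (fun b => q ∈ b ∧ b.card = 3)
  omega

end Pool.Agent.TH348.Circ.Six
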