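import Mathlib
import Pool.Agent.TH348.Circ.SixB

/-! Seven points. -/

namespace Pool.Agent.TH348.Circ.Seven

open Finset Pool.Agent.Helper543.Melchior Pool.Agent.Helper543.Blocks
open Pool.Agent.Helper543.PlaneC
open Pool.Agent.Helper543.Count Pool.Agent.Helper543.Bounds Pool.Agent.Helper543.Small
open Pool.Agent.TH348.Circ.Types Pool.Agent.TH348.Circ.Six

section comb

variable {α : Type} [DecidableEq α]

/-- circles of four points -/
def T4 (S : Cfg α) : Finset (Finset α) := S.circ.filter (fun b => b.card = 4)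

lemma mem_T4 {S : Cfg α} {A : Finset α} : A ∈ T4 S ↔ A ∈ S.circ ∧ A.card = 4 := by
  simp [T4]

lemma ac4_eq (S : Cfg α) (p : α) : ac S p 4 = ((T4 S).filter (fun b => p ∈ b)).card := by
  unfold ac T4
  rw [filter_filter, filter_filter]
  congr 1
  ext b
  simp only [mem_filter]
  tauto

lemma pair_le (S : Cfg α) (hn : S.P.card = 7) {p q : α} (hp : p ∈ S.P) (hq : q ∈ S.P)
    (hpq : p ≠ q) : (((T4 S).filter (fun b => p ∈ b)).filter (fun b => q ∈ b)).card ≤ 2 := by
  set T := ((T4 S).filter (fun b => p ∈ b)).filter (fun b => q ∈ b) with hT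
  have h := sum_point T (S.P \ {p, q}) (fun _ => 1)
  have hcardP : (S.P \ {p, q}).card = 5 := by
    rw [card_sdiff_of_subset, hn, card_pair hpq]
    intro x hx
    rcases mem_insert.1 hx with rfl | hx
    · exact hp
    · rw [mem_singleton.1 hx]; exact hq
  have h1 : ∑ r ∈ S.P \ {p, q}, ∑ b ∈ T with r ∈ b, (1 : ℤ) ≤ 5 := by
    calc _ ≤ ∑ r ∈ S.P \ {p, q}, (1 : ℤ) := by
          apply sum_le_sum
          intro r hr
          rw [sum_const, nsmul_eq_mul, mul_one]
          have hrp : r ≠ p := by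
            rintro rfl
            exact (mem_sdiff.1 hr).2 (by simp)
          have hrq : r ≠ q := by
            rintro rfl
            exact (mem_sdiff.1 hr).2 (by simp)
          have : (T.filter (fun b => r ∈ b)).card ≤ 1 := by
            apply card_le_one.2
            intro b hb b' hb'
            obtain ⟨hb1, hb2⟩ := mem_filter.1 hb
            obtain ⟨hb3, hb4⟩ := mem_filter.1 hb1
            obtain ⟨hb5, hb6⟩ := mem_filter.1 hb3
            obtain ⟨hc1, hc2⟩ := mem_filter.1 hb'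
            obtain ⟨hc3, hc4⟩ := mem_filter.1 hc1
            obtain ⟨hc5, hc6⟩ := mem_filter.1 hc3
            exact S.un3 b (mem_sdiff.1 (mem_T4.1 hb5).1).1 b' (mem_sdiff.1 (mem_T4.1 hc5).1).1
              p q r hpq hrp.symm hrq.symm hb6 hb4 hb2 hc6 hc4 hc2
          exact_mod_cast this
      _ = 5 := by rw [sum_const, hcardP]; norm_num
  rw [h] at h1
  have h2 : ∀ b ∈ T, ((b ∩ (S.P \ {p, q})).card : ℤ) * 1 = 2 := by
    intro b hb
    obtain ⟨hb3, hb4⟩ := mem_filter.1 hb
    obtain ⟨hb5, hb6⟩ := mem_filter.1 hb3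
    obtain ⟨hb7, hb8⟩ := mem_T4.1 hb5
    have hbP := S.hBP b (mem_sdiff.1 hb7).1
    have : b ∩ (S.P \ {p, q}) = b \ {p, q} := by
      ext x
      simp only [mem_inter, mem_sdiff]
      constructor
      · rintro ⟨h1, _, h3⟩; exact ⟨h1, h3⟩
      · rintro ⟨h1, h3⟩; exact ⟨h1, hbP h1, h3⟩
    rw [this, card_sdiff_of_subset, hb8, card_pair hpq]
    · norm_num
    · intro x hx
      rcases mem_insert.1 hx with rfl | hx
      · exact hb6
      · rw [mem_singleton.1 hx]; exact hb4
  rw [sum_congr rfl h2, sum_const, nsmul_eq_mul] at h1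
  omega

/-- two points lie on exactly two circles of four points -/
lemma pair_eq (S : Cfg α) (hn : S.P.card = 7) {p : α} (hp : p ∈ S.P) (h4 : ac S p 4 = 4) :
    ∀ q ∈ S.P.erase p,
      ((((T4 S).filter (fun b => p ∈ b)).filter (fun b => q ∈ b)).card : ℤ) = 2 := by
  apply (sum_eq_sum_iff_of_le (fun q hq => ?_)).1
  · have h := sum_point ((T4 S).filter (fun b => p ∈ b)) (S.P.erase p) (fun _ => 1)
    have e1 : ∑ q ∈ S.P.erase p,
        ((((T4 S).filter (fun b => p ∈ b)).filter (fun b => q ∈ b)).card : ℤ) =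
        ∑ q ∈ S.P.erase p, ∑ b ∈ (T4 S).filter (fun b => p ∈ b) with q ∈ b, (1 : ℤ) := by
      apply sum_congr rfl
      intro q _
      rw [sum_const, nsmul_eq_mul, mul_one]
    rw [e1, h]
    have h2 : ∀ b ∈ (T4 S).filter (fun b => p ∈ b),
        ((b ∩ (S.P.erase p)).card : ℤ) * 1 = 3 := by
      intro b hb
      obtain ⟨hb5, hb6⟩ := mem_filter.1 hb
      obtain ⟨hb7, hb8⟩ := mem_T4.1 hb5
      have hbP := S.hBP b (mem_sdiff.1 hb7).1
      have : b ∩ (S.P.erase p) = b.erase p := by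
        ext x
        simp only [mem_inter, mem_erase]
        constructor
        · rintro ⟨h1, h2, _⟩; exact ⟨h2, h1⟩
        · rintro ⟨h1, h3⟩; exact ⟨h3, h1, hbP h3⟩
      rw [this, card_erase_of_mem hb6, hb8]
      norm_num
    rw [sum_congr rfl h2, sum_const, sum_const, ← ac4_eq, h4, card_erase_of_mem hp, hn]
    norm_num
  · exact_mod_cast pair_le S hn hp (mem_of_mem_erase hq) (ne_of_mem_erase hq).symm

/-- some circle of four points misses a given collinear triple -/
lemma exists_miss (S : Cfg α) (hn : S.P.card = 7) (h7 : gc S 4 = 7)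
    (h4 : ∀ p ∈ S.P, ac S p 4 = 4) {l : Finset α} (hl : l ∈ S.L) (h3 : l.card = 3) :
    ∃ A ∈ T4 S, (A ∩ l).card = 0 := by
  have hlP := S.hLP l hl
  have hlB := S.hLB l hl (by omega)
  have hle : ∀ A ∈ T4 S, (A ∩ l).card ≤ 2 := by
    intro A hA
    have hA' := (mem_T4.1 hA).1
    exact inter_le_two S (mem_sdiff.1 hA').1 hlB (fun e => (mem_sdiff.1 hA').2 (e ▸ hl))
  -- first moment
  have s1 : ∑ A ∈ T4 S, ((A ∩ l).card : ℤ) = 12 := by
    have h := sum_point (T4 S) l (fun _ => 1)
    simp only [mul_one] at h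
    rw [← h]
    have : ∀ p ∈ l, ∑ b ∈ T4 S with p ∈ b, (1 : ℤ) = 4 := by
      intro p hp
      rw [sum_const, nsmul_eq_mul, mul_one, ← ac4_eq, h4 p (hlP hp)]
      norm_num
    rw [sum_congr rfl this, sum_const, h3]
    norm_num
  -- second moment
  have s2 : ∑ A ∈ T4 S, ((A ∩ l).card : ℤ) * (((A ∩ l).card : ℤ) - 1) = 12 := by
    rw [← sum_point (T4 S) l (fun A => ((A ∩ l).card : ℤ) - 1)]
    have : ∀ p ∈ l, ∑ b ∈ T4 S with p ∈ b, (((b ∩ l).card : ℤ) - 1) = 4 := by
      intro p hp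
      have h := sum_point ((T4 S).filter (fun b => p ∈ b)) (l.erase p) (fun _ => 1)
      have e2 : ∑ b ∈ T4 S with p ∈ b, (((b ∩ l).card : ℤ) - 1) =
          ∑ b ∈ T4 S with p ∈ b, ((b ∩ (l.erase p)).card : ℤ) * 1 := by
        apply sum_congr rfl
        intro b hb
        have hpb := (mem_filter.1 hb).2
        have : b ∩ (l.erase p) = (b ∩ l).erase p := by
          ext x
          simp only [mem_inter, mem_erase]
          tauto
        have hpm : p ∈ b ∩ l := mem_inter.2 ⟨hpb, hp⟩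
        have hpos : 1 ≤ (b ∩ l).card := card_pos.2 ⟨p, hpm⟩
        rw [this, card_erase_of_mem hpm]
        push_cast [Nat.cast_sub hpos]
        ring
      rw [e2, ← h]
      have e3 : ∀ q ∈ l.erase p, ∑ b ∈ (T4 S).filter (fun b => p ∈ b) with q ∈ b, (1 : ℤ) = 2 := by
        intro q hq
        rw [sum_const, nsmul_eq_mul, mul_one]
        exact pair_eq S hn (hlP hp) (h4 p (hlP hp)) q
          (mem_erase.2 ⟨ne_of_mem_erase hq, hlP (mem_of_mem_erase hq)⟩)
      rw [sum_congr rfl e3, sum_const, card_erase_of_mem hp, h3]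
      norm_num
    rw [sum_congr rfl this, sum_const, h3]
    norm_num
  by_contra hcon
  push Not at hcon
  have hz : ∑ A ∈ T4 S, ((((A ∩ l).card : ℤ) - 1) * (2 - ((A ∩ l).card : ℤ))) = 0 := by
    apply sum_eq_zero
    intro A hA
    have h1 := hle A hA
    have h2 := hcon A hA
    have : (A ∩ l).card = 1 ∨ (A ∩ l).card = 2 := by omega
    rcases this with h | h <;> rw [h] <;> norm_num
  have e : ∑ A ∈ T4 S, ((((A ∩ l).card : ℤ) - 1) * (2 - ((A ∩ l).card : ℤ))) =
      2 * ∑ A ∈ T4 S, ((A ∩ l).card : ℤ) -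
      ∑ A ∈ T4 S, ((A ∩ l).card : ℤ) * (((A ∩ l).card : ℤ) - 1) - 2 * ((T4 S).card : ℤ) := by
    have e4 : 2 * ((T4 S).card : ℤ) = ∑ A ∈ T4 S, (2 : ℤ) := by
      rw [sum_const, nsmul_eq_mul]; ring
    rw [e4, mul_sum, ← sum_sub_distrib, ← sum_sub_distrib]
    apply sum_congr rfl
    intro A _
    ring
  have h7' : (T4 S).card = 7 := h7
  rw [e, s1, s2, h7'] at hz
  norm_num at hz

/-- two collinear triples meet -/
lemma triples_meet (S : Cfg α) (hn : S.P.card = 7) (h7 : gc S 4 = 7)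
    (h4 : ∀ p ∈ S.P, ac S p 4 = 4) {l l' : Finset α} (hl : l ∈ S.L) (h3 : l.card = 3)
    (hl' : l' ∈ S.L) (h3' : l'.card = 3) : 1 ≤ (l' ∩ l).card := by
  obtain ⟨A, hA, hA0⟩ := exists_miss S hn h7 h4 hl h3
  obtain ⟨hA1, hA2⟩ := mem_T4.1 hA
  by_contra hcon
  have h0 : (l' ∩ l).card = 0 := by omega
  have hAP := S.hBP A (mem_sdiff.1 hA1).1
  have hAeq : A = S.P \ l := by
    apply eq_of_subset_of_card_le
    · intro x hx
      refine mem_sdiff.2 ⟨hAP hx, fun hxl => ?_⟩
      rw [card_eq_zero] at hA0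
      have : x ∈ A ∩ l := mem_inter.2 ⟨hx, hxl⟩
      rw [hA0] at this
      simp at this
    · rw [card_sdiff_of_subset (S.hLP l hl), hn, h3, hA2]
  have hsub : l' ⊆ A := by
    intro x hx
    rw [hAeq, mem_sdiff]
    refine ⟨S.hLP l' hl' hx, fun hxl => ?_⟩
    rw [card_eq_zero] at h0
    have : x ∈ l' ∩ l := mem_inter.2 ⟨hx, hxl⟩
    rw [h0] at this
    simp at this
  have := inter_le_two S (S.hLB l' hl' (by omega)) (mem_sdiff.1 hA1).1
    (fun e => (mem_sdiff.1 hA1).2 (e ▸ hl'))
  rw [inter_eq_left.2 hsub] at this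
  omega

theorem comb7 (S : Cfg α) (hn : S.P.card = 7) (hM : ∀ b ∈ S.B, b.card ≤ 4)
    (hM' : ∀ b ∈ S.L, b.card ≤ 4) (hc : cc S = 10) (hdel : ∀ q ∈ S.P, ac S q 3 ≤ 2) : False := by
  obtain ⟨g1, g2, g3, g4⟩ := glob4 S hM hM'
  rw [hn] at g1 g2
  push_cast at g1 g2
  have hloc : ∀ p ∈ S.P, (3 : ℤ) ≤ (ac S p 3 : ℤ) + al S p 3 := fun p hp =>
    (rel4 S hM hM' hp).2.2.1
  have hsum := sum_le_sum hloc
  rw [sum_const, sum_add_distrib, sum_ac, sum_al, hn] at hsum
  simp only [nsmul_eq_mul] at hsum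
  push_cast at hsum
  have hdel' : ∀ p ∈ S.P, (ac S p 3 : ℤ) ≤ 2 := fun p hp => by exact_mod_cast hdel p hp
  have hsum2 := sum_le_sum hdel'
  rw [sum_const, sum_ac, hn] at hsum2
  simp only [nsmul_eq_mul] at hsum2
  push_cast at hsum2
  have hcase : (gc S 3 = 4 ∧ gc S 4 = 6 ∧ gl S 3 = 3 ∧ gl S 4 = 1) ∨
      (gc S 3 = 3 ∧ gc S 4 = 7 ∧ gl S 3 = 4 ∧ gl S 4 = 0) := by omega
  have h33 : ∀ p ∈ S.P, (3 : ℤ) = (ac S p 3 : ℤ) + al S p 3 := by
    apply (sum_eq_sum_iff_of_le hloc).1
    rw [sum_const, sum_add_distrib, sum_ac, sum_al, hn]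
    rcases hcase with ⟨a, _, b, _⟩ | ⟨a, _, b, _⟩ <;> rw [a, b] <;> norm_num
  rcases hcase with ⟨_, _, _, f4⟩ | ⟨f1, f2, f3, f4⟩
  · unfold gl at f4
    obtain ⟨l, hl⟩ := card_pos.1 (show 0 < (S.L.filter (fun b => b.card = 4)).card by omega)
    obtain ⟨hlL, hl4⟩ := mem_filter.1 hl
    obtain ⟨q, hq⟩ := card_pos.1 (show 0 < l.card by omega)
    have hqP := S.hLP l hlL hq
    have hpos : 1 ≤ al S q 4 := by
      unfold al
      exact card_pos.2 ⟨l, mem_filter.2 ⟨mem_filter.2 ⟨hlL, hq⟩, hl4⟩⟩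
    obtain ⟨r1, r2, r3, r4⟩ := rel4 S hM hM' hqP
    have r5 := h33 q hqP
    have r6 := hdel q hqP
    rw [hn] at r1
    push_cast at r1
    omega
  · have h4z : ∀ p ∈ S.P, al S p 4 = 0 := by
      have := sum_al S 4
      rw [f4] at this
      push_cast at this
      have h0 := (sum_eq_zero_iff_of_nonneg (fun p _ => by positivity)).1 this
      intro p hp
      exact_mod_cast h0 p hp
    have hp3 : ∀ p ∈ S.P, ac S p 4 = 4 ∧ (al S p 3 : ℤ) ≤ 2 := by
      intro p hp
      obtain ⟨r1, r2, r3, r4⟩ := rel4 S hM hM' hp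
      have r5 := h33 p hp
      have r6 := hdel p hp
      have r7 := h4z p hp
      rw [hn] at r1 r2
      push_cast at r1 r2
      omega
    have hp1 : ∀ p ∈ S.P, 1 ≤ al S p 3 := by
      intro p hp
      have r5 := h33 p hp
      have r6 := hdel p hp
      omega
    -- a point on one collinear triple only
    have hex : ∃ q ∈ S.P, al S q 3 = 1 := by
      by_contra hcon
      push Not at hcon
      have h2 : ∀ p ∈ S.P, (2 : ℤ) ≤ (al S p 3 : ℤ) := by
        intro p hp
        have a1 := hcon p hp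
        have a2 := hp1 p hp
        omega
      have := sum_le_sum h2
      rw [sum_const, sum_al, hn, f3] at this
      norm_num at this
    obtain ⟨q, hq, hq1⟩ := hex
    have hq1' := hq1
    unfold al at hq1'
    obtain ⟨l, hl⟩ := card_pos.1
      (show 0 < ((S.L.filter (fun b => q ∈ b)).filter (fun b => b.card = 3)).card by omega)
    obtain ⟨hl1, hl3⟩ := mem_filter.1 hl
    obtain ⟨hlL, hql⟩ := mem_filter.1 hl1
    have hsumI := sum_incid S.L l 3
    have hmem : l ∈ S.L.filter (fun b => b.card = 3) := mem_filter.2 ⟨hlL, hl3⟩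
    have hge : (6 : ℤ) ≤ ∑ b ∈ S.L.filter (fun b => b.card = 3), ((b ∩ l).card : ℤ) := by
      rw [← add_sum_erase _ _ hmem, inter_self, hl3]
      have h1 : ∑ b ∈ (S.L.filter (fun b => b.card = 3)).erase l, (1 : ℤ) ≤
          ∑ b ∈ (S.L.filter (fun b => b.card = 3)).erase l, ((b ∩ l).card : ℤ) := by
        apply sum_le_sum
        intro b hb
        obtain ⟨hb1, hb2⟩ := mem_filter.1 (mem_of_mem_erase hb)
        exact_mod_cast triples_meet S hn f2 (fun p hp => (hp3 p hp).1) hlL hl3 hb1 hb2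
      rw [sum_const, card_erase_of_mem hmem] at h1
      have h5 : (S.L.filter (fun b => b.card = 3)).card = 4 := f3
      rw [h5] at h1
      norm_num at h1
      push_cast
      linarith
    rw [← hsumI] at hge
    have hle : ∑ p ∈ l, (((S.L.filter (fun b => p ∈ b)).filter (fun b => b.card = 3)).card : ℤ) ≤
        5 := by
      rw [← add_sum_erase _ _ hql]
      have h1 : ∑ p ∈ l.erase q,
          (((S.L.filter (fun b => p ∈ b)).filter (fun b => b.card = 3)).card : ℤ) ≤
          ∑ p ∈ l.erase q, (2 : ℤ) := by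
        apply sum_le_sum
        intro p hp
        exact (hp3 p (S.hLP l hlL (mem_of_mem_erase hp))).2
      rw [sum_const, card_erase_of_mem hql, hl3] at h1
      norm_num at h1
      rw [hq1']
      push_cast
      linarith
    linarith

end comb

theorem lower7 (P : Finset Pt) (hn : P.card = 7) (hP : ∀ B ∈ blocks P, ∃ x ∈ P, x ∉ B) :
    11 ≤ (blocks P \ lines P).card := by
  have key : (10 : ℤ) < cc (cfg P (by omega) hP) := by
    set S := cfg P (by omega) hP with hS
    have hnS : S.P.card = 7 := hn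
    obtain ⟨C, hCB, hm, hm', hC3, hlt⟩ := Low.exists_largest S (by omega)
      (by
        intro hmem
        obtain ⟨x, hx, hx'⟩ := hP _ hmem
        exact hx' hx)
    have e7 : T 7 = 12 := by decide +kernel
    by_cases hnear : S.P.card = C.card + 1
    · by_cases hCL : C ∈ S.L
      · have := nearB S hCL hC3 hm hm' hnear
        rw [hnS, e7] at this; linarith
      · have := nearA S (mem_sdiff.2 ⟨hCB, hCL⟩) hm hm' hnear
        rw [hnS, e7] at this; linarith
    have hcases : C.card = 3 ∨ C.card = 4 ∨ C.card = 5 := by omega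
    rcases hcases with h3 | h4 | h5
    · by_cases hCL : C ∈ S.L
      · exact useBt 10 S hCL hC3 hm hm' ⟨6, 3, 3, 1, 0, -2, -1, 0, 0, 0, 0, 2, 0, 0⟩
          (by rw [hnS, h3]; decide +kernel)
      · exact useAt 10 S (mem_sdiff.2 ⟨hCB, hCL⟩) hm hm'
          ⟨6, 3, 3, 1, -1, -2, -1, 0, 0, 0, 0, 2, 0, 0⟩
          (by rw [hnS, h3]; decide +kernel)
    · by_cases hCL : C ∈ S.L
      · exact useBt 10 S hCL hC3 hm hm' ⟨4, 2, -1, 0, 0, 0, 0, 0, 0, 0, 0, 0, 0, 0⟩
          (by rw [hnS, h4]; decide +kernel)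
      · have h9 : 9 < cc S := useAt 9 S (mem_sdiff.2 ⟨hCB, hCL⟩) hm hm' ⟨72, 9, 9, 3, -8, -16, -8, 10, 10, 8, 8, 0, 0, 0⟩
          (by rw [hnS, h4]; decide +kernel)
        rw [h4] at hm hm'
        by_contra hcon
        push Not at hcon
        apply comb7 S hnS hm hm' (by omega)
        intro q hq
        have hdel := delete_le P q
        have hcard : (P.erase q).card = 6 := by
          have : q ∈ P := hq
          rw [card_erase_of_mem this, hn]
        have h6 := lower6 (P.erase q) hcard (by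
          intro B hB
          obtain ⟨a, ha, b, hb, c, hc, hab, hac, hbc, rfl⟩ := mem_blocks.1 hB
          have h1 : blk P a b c ∈ blocks P := blk_mem_blocks (mem_of_mem_erase ha)
            (mem_of_mem_erase hb) (mem_of_mem_erase hc) hab hac hbc
          have h2 := hm _ h1
          by_contra hno
          push Not at hno
          have h3 : P.erase q ⊆ blk P a b c := by
            intro x hx
            have := mem_blk.1 (hno x hx)
            exact mem_blk.2 ⟨mem_of_mem_erase hx, this.2⟩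
          have := card_le_card h3
          omega)
        have e : ac S q 3 = ((blocks P \ lines P).filter (fun b => q ∈ b ∧ b.card = 3)).card := by
          unfold ac
          rw [filter_filter]
          rfl
        have e2 : cc S = ((blocks P \ lines P).card : ℤ) := rfl
        rw [e]
        omega
    · by_cases hCL : C ∈ S.L
      · exact useBt 10 S hCL hC3 hm hm' ⟨2, 1, 0, 0, 0, 0, 0, 0, 0, 0, 0, 0, 1, 0⟩
          (by rw [hnS, h5]; decide +kernel)
      · exact useAt 10 S (mem_sdiff.2 ⟨hCB, hCL⟩) hm hm' ⟨2, 1, 1, 0, 0, -1, 0, 0, 0, 0, 0, 0, 3, 0⟩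
          (by rw [hnS, h5]; decide +kernel)
  unfold cc Cfg.circ at key
  have h2 : (10 : ℤ) < ((blocks P \ lines P).card : ℤ) := key
  omega

end Pool.Agent.TH348.Circ.Seven
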