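import Mathlib
import Pool.Agent.Helper543.PlaneC

/-! Upper bound: centre and antipodal pairs on a circle. -/

namespace Pool.Agent.TH348.Circ

open Finset Pool.Agent.Helper543.Melchior Pool.Agent.Helper543.Blocks
open Pool.Agent.Helper543.PlaneC

noncomputable section

open scoped Classical

/-- on the unit circle -/
def On1 (x : Pt) : Prop := x.1 ^ 2 + x.2 ^ 2 = 1

lemma not_col {a b x : Pt} (ha : On1 a) (hb : On1 b) (hx : On1 x) (hab : a ≠ b) (hxa : x ≠ a)
    (hxb : x ≠ b) : cr a b x ≠ 0 := by
  intro h
  obtain ⟨t, h1, h2⟩ := exists_param hab h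
  unfold On1 at ha hb hx
  have hpos : 0 < (b.1 - a.1) ^ 2 + (b.2 - a.2) ^ 2 := nrm_pos (p := a) (a := b) hab.symm
  have e1 : x.1 = a.1 + t * (b.1 - a.1) := by linarith
  have e2 : x.2 = a.2 + t * (b.2 - a.2) := by linarith
  have key : t * (t - 1) * ((b.1 - a.1) ^ 2 + (b.2 - a.2) ^ 2) = 0 := by
    rw [e1, e2] at hx
    linear_combination hx + (t - 1) * ha - t * hb
  rcases mul_eq_zero.1 key with h | h
  · rcases mul_eq_zero.1 h with h | h
    · apply hxa
      ext
      · rw [e1, h]; ring
      · rw [e2, h]; ring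
    · apply hxb
      have ht : t = 1 := by linarith
      ext
      · rw [e1, ht]; ring
      · rw [e2, ht]; ring
  · exact hpos.ne' h

lemma G0 {a b x : Pt} (ha : On1 a) (hb : On1 b) (hx : On1 x) : G 0 a b x = cr a b x := by
  unfold On1 at ha hb hx
  simp only [G, nrm, cr, Prod.fst_zero, Prod.snd_zero, sub_zero, ha, hb, hx]
  ring

lemma G_unit {a b c x : Pt} (ha : On1 a) (hb : On1 b) (hc : On1 c) (hx : On1 x) :
    G a b c x = 0 := by
  apply G_of_On (p := 0) (q := 0) (k := 1) <;> simp only [On] <;> unfold On1 at *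
  · linarith
  · linarith
  · linarith
  · linarith

/-- structure of the blocks of a set consisting of the centre and points of the unit circle -/
lemma block_struct {S : Finset Pt} (hS : ∀ x ∈ S, On1 x) {B : Finset Pt}
    (hB : B ∈ blocks (insert 0 S)) :
    B = S ∨ ((0 : Pt) ∈ B ∧ ∃ a ∈ S, ∃ b ∈ S, a ≠ b ∧ B = {0, a, b}) := by
  have h0S : (0 : Pt) ∉ S := fun h => by
    have := hS 0 h
    simp [On1] at this
  by_cases h0 : (0 : Pt) ∈ B
  · right
    refine ⟨h0, ?_⟩
    obtain ⟨a, ha, b, hb, ha0, hb0, hba, rfl⟩ := block_first hB h0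
    have haS : a ∈ S := (mem_insert.1 ha).resolve_left ha0
    have hbS : b ∈ S := (mem_insert.1 hb).resolve_left hb0
    refine ⟨a, haS, b, hbS, hba.symm, ?_⟩
    ext x
    rw [mem_blk]
    simp only [mem_insert, mem_singleton]
    constructor
    · rintro ⟨rfl | hx, hG⟩
      · exact Or.inl rfl
      · right
        rw [G0 (hS a haS) (hS b hbS) (hS x hx)] at hG
        by_contra hcon
        push Not at hcon
        exact not_col (hS a haS) (hS b hbS) (hS x hx) hba.symm hcon.1 hcon.2 hG
    · rintro (rfl | rfl | rfl)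
      · exact ⟨Or.inl rfl, G_self1 _ _ _⟩
      · exact ⟨Or.inr haS, G_self2 _ _ _⟩
      · exact ⟨Or.inr hbS, G_self3 _ _ _⟩
  · left
    obtain ⟨a, ha, b, hb, c, hc, hab, hac, hbc, rfl⟩ := mem_blocks.1 hB
    have h1 : ∀ x, x ∈ blk (insert 0 S) a b c → x ∈ S := fun x hx => by
      have := block_subset hB hx
      rcases mem_insert.1 this with rfl | h
      · exact absurd hx h0
      · exact h
    have haS := h1 a (blk_mem1 ha)
    have hbS := h1 b (blk_mem2 hb)
    have hcS := h1 c (blk_mem3 hc)
    ext x
    constructor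
    · exact h1 x
    · intro hx
      exact mem_blk.2 ⟨mem_insert_of_mem hx, G_unit (hS a haS) (hS b hbS) (hS c hcS) (hS x hx)⟩

/-- antipodal pairs are collinear with the centre -/
lemma antipodal_line {S : Finset Pt} (hS : ∀ x ∈ S, On1 x) {a : Pt} (ha : a ∈ S) (hb : -a ∈ S) :
    ({0, a, -a} : Finset Pt) ∈ lines (insert 0 S) := by
  have ha0 : a ≠ 0 := by
    rintro rfl
    have := hS 0 ha
    simp [On1] at this
  have h := lineOf_mem_lines (S := insert 0 S) (mem_insert_self 0 S)
    (mem_insert_of_mem ha) ha0.symm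
  convert h using 1
  ext x
  rw [mem_lineOf]
  simp only [mem_insert, mem_singleton]
  constructor
  · rintro (rfl | rfl | rfl)
    · exact ⟨Or.inl rfl, cr_self_left _ _⟩
    · exact ⟨Or.inr ha, cr_self_right _ _⟩
    · refine ⟨Or.inr hb, ?_⟩
      simp only [cr, Prod.fst_zero, Prod.snd_zero, sub_zero, Prod.fst_neg, Prod.snd_neg]
      ring
  · rintro ⟨rfl | hx, hcr⟩
    · exact Or.inl rfl
    · right
      have h1 := hS a ha
      have h2 := hS x hx
      unfold On1 at h1 h2
      simp only [cr, Prod.fst_zero, Prod.snd_zero, sub_zero] at hcr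
      -- x = t a
      have e1 : x.1 = (x.1 * a.1 + x.2 * a.2) * a.1 := by
        linear_combination (-x.1) * h1 - a.2 * hcr
      have e2 : x.2 = (x.1 * a.1 + x.2 * a.2) * a.2 := by
        linear_combination (-x.2) * h1 + a.1 * hcr
      have e3 : (x.1 * a.1 + x.2 * a.2 - 1) * (x.1 * a.1 + x.2 * a.2 + 1) = 0 := by
        linear_combination (a.1 ^ 2 + a.2 ^ 2) * h2 + h1 - (a.1 * x.2 - a.2 * x.1) * hcr
      rcases mul_eq_zero.1 e3 with h | h
      · left
        have h' : x.1 * a.1 + x.2 * a.2 = 1 := by linarith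
        rw [h'] at e1 e2
        ext
        · linarith
        · linarith
      · right
        have h' : x.1 * a.1 + x.2 * a.2 = -1 := by linarith
        rw [h'] at e1 e2
        ext
        · rw [Prod.fst_neg]; linarith
        · rw [Prod.snd_neg]; linarith

lemma card_erase_add_one_le {α : Type} [DecidableEq α] (T : Finset α) (x : α) :
    T.card ≤ (T.erase x).card + 1 := by
  by_cases h : x ∈ T
  · rw [card_erase_of_mem h]; omega
  · rw [erase_eq_of_notMem h]; omega

/-- counting bound -/
theorem count_le {S : Finset Pt} (hS : ∀ x ∈ S, On1 x) (A : Finset (Finset Pt))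
    (hA : ∀ t ∈ A, ∃ a ∈ S, -a ∈ S ∧ t = {a, -a}) :
    (blocks (insert 0 S) \ lines (insert 0 S)).card + A.card ≤ S.card.choose 2 + 1 := by
  have h0S : (0 : Pt) ∉ S := fun h => by
    have := hS 0 h
    simp [On1] at this
  have hAsub : A ⊆ S.powersetCard 2 := by
    intro t ht
    obtain ⟨a, ha, hb, rfl⟩ := hA t ht
    rw [mem_powersetCard]
    have hne : a ≠ -a := by
      intro e
      apply h0S
      have : a = 0 := by
        have h1 := congrArg Prod.fst e
        have h2 := congrArg Prod.snd e
        rw [Prod.fst_neg] at h1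
        rw [Prod.snd_neg] at h2
        ext
        · rw [Prod.fst_zero]; linarith
        · rw [Prod.snd_zero]; linarith
      rw [← this]; exact ha
    refine ⟨?_, card_pair hne⟩
    intro x hx
    rcases mem_insert.1 hx with rfl | hx
    · exact ha
    · rw [mem_singleton.1 hx]; exact hb
  have hle : ((blocks (insert 0 S) \ lines (insert 0 S)).erase S).card ≤
      (S.powersetCard 2 \ A).card := by
    apply card_le_card_of_injOn (fun B => B.erase 0)
    · intro B hB
      obtain ⟨hBS, hB2⟩ := mem_erase.1 (mem_coe.1 hB)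
      obtain ⟨hBb, hBl⟩ := mem_sdiff.1 hB2
      rcases block_struct hS hBb with h | ⟨h0, a, ha, b, hb, hab, rfl⟩
      · exact absurd h hBS
      · have ha0 : (0 : Pt) ≠ a := fun e => h0S (e ▸ ha)
        have hb0 : (0 : Pt) ≠ b := fun e => h0S (e ▸ hb)
        have e1 : ({0, a, b} : Finset Pt).erase 0 = {a, b} := by
          rw [erase_insert]
          simp [ha0, hb0]
        rw [mem_coe]
        show ({0, a, b} : Finset Pt).erase 0 ∈ _
        rw [e1, mem_sdiff, mem_powersetCard]
        refine ⟨⟨?_, card_pair hab⟩, ?_⟩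
        · intro x hx
          rcases mem_insert.1 hx with rfl | hx
          · exact ha
          · rw [mem_singleton.1 hx]; exact hb
        · intro hmem
          obtain ⟨c, hc, hc', he⟩ := hA _ hmem
          apply hBl
          have := antipodal_line hS hc hc'
          rw [he]
          exact this
    · intro B hB B' hB' he
      obtain ⟨hBS, hB2⟩ := mem_erase.1 (mem_coe.1 hB)
      obtain ⟨hBb, hBl⟩ := mem_sdiff.1 hB2
      obtain ⟨hBS', hB2'⟩ := mem_erase.1 (mem_coe.1 hB')
      obtain ⟨hBb', hBl'⟩ := mem_sdiff.1 hB2'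
      have h0 : (0 : Pt) ∈ B := ((block_struct hS hBb).resolve_left hBS).1
      have h0' : (0 : Pt) ∈ B' := ((block_struct hS hBb').resolve_left hBS').1
      have he' : B.erase 0 = B'.erase 0 := he
      rw [← insert_erase h0, ← insert_erase h0', he']
  rw [card_sdiff_of_subset hAsub, card_powersetCard] at hle
  have h2 := card_le_card hAsub
  rw [card_powersetCard] at h2
  have h3 := card_erase_add_one_le (blocks (insert 0 S) \ lines (insert 0 S)) S
  omega

/-- rational points of the upper half of the unit circle -/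
def u (k : ℕ) : Pt := ((1 - ((k : ℝ) + 1) ^ 2) / (1 + ((k : ℝ) + 1) ^ 2),
  2 * ((k : ℝ) + 1) / (1 + ((k : ℝ) + 1) ^ 2))

lemma u_on (k : ℕ) : On1 (u k) := by
  have h : (1 : ℝ) + ((k : ℝ) + 1) ^ 2 ≠ 0 := by positivity
  unfold On1 u
  field_simp
  ring

lemma u_pos (k : ℕ) : 0 < (u k).2 := by
  unfold u
  positivity

lemma u_inj : Function.Injective u := by
  intro a b h
  have h1 := congrArg Prod.fst h
  have h2 := congrArg Prod.snd h
  unfold u at h1 h2
  simp only at h1 h2
  have ha : (1 : ℝ) + ((a : ℝ) + 1) ^ 2 ≠ 0 := by positivity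
  have hb : (1 : ℝ) + ((b : ℝ) + 1) ^ 2 ≠ 0 := by positivity
  rw [div_eq_div_iff ha hb] at h1
  have h3 : ((a : ℝ) + 1) ^ 2 = ((b : ℝ) + 1) ^ 2 := by nlinarith
  have h4 : ((a : ℝ) - b) * ((a : ℝ) + b + 2) = 0 := by linear_combination h3
  rcases mul_eq_zero.1 h4 with h | h
  · have : (a : ℝ) = b := by linarith
    exact_mod_cast this
  · have : (0 : ℝ) < (a : ℝ) + b + 2 := by positivity
    exact absurd h this.ne'

/-- the circle points of the construction -/
def ring1 (m : ℕ) : Finset Pt :=
  ((range (m / 2)).image u ∪ (range (m / 2)).image (fun k => - u k)) ∪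
    (if m % 2 = 1 then {((1 : ℝ), (0 : ℝ))} else ∅)

lemma ring1_on (m : ℕ) : ∀ x ∈ ring1 m, On1 x := by
  intro x hx
  unfold ring1 at hx
  rcases mem_union.1 hx with h | h
  · rcases mem_union.1 h with h | h
    · obtain ⟨k, _, rfl⟩ := mem_image.1 h
      exact u_on k
    · obtain ⟨k, _, rfl⟩ := mem_image.1 h
      have := u_on k
      unfold On1 at this ⊢
      rw [Prod.fst_neg, Prod.snd_neg]
      linarith
  · split_ifs at h
    · rw [mem_singleton.1 h]
      simp [On1]
    · simp at h

lemma ring1_card (m : ℕ) : (ring1 m).card = m := by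
  unfold ring1
  have hneg : Function.Injective (fun k => - u k) := fun a b h => u_inj (neg_injective h)
  rw [card_union_of_disjoint, card_union_of_disjoint, card_image_of_injective _ u_inj,
    card_image_of_injective _ hneg, card_range]
  · split_ifs with h
    · rw [card_singleton]; omega
    · rw [card_empty]; omega
  · rw [disjoint_left]
    intro x hx hx'
    obtain ⟨k, _, rfl⟩ := mem_image.1 hx
    obtain ⟨l, _, hl⟩ := mem_image.1 hx'
    have h1 := u_pos k
    have h2 := u_pos l
    have h3 := congrArg Prod.snd hl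
    rw [Prod.snd_neg] at h3
    linarith
  · rw [disjoint_left]
    intro x hx hx'
    split_ifs at hx'
    · have hx0 := mem_singleton.1 hx'
      subst hx0
      rcases mem_union.1 hx with h | h
      · obtain ⟨k, _, hk⟩ := mem_image.1 h
        have h1 := u_pos k
        rw [hk] at h1
        simp at h1
      · obtain ⟨k, _, hk⟩ := mem_image.1 h
        have h1 := u_pos k
        have h3 := congrArg Prod.snd hk
        rw [Prod.snd_neg] at h3
        simp only at h3
        linarith
    · simp at hx'

/-- the antipodal pairs -/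
def pairsA (m : ℕ) : Finset (Finset Pt) := (range (m / 2)).image (fun k => {u k, - u k})

lemma pairsA_card (m : ℕ) : (pairsA m).card = m / 2 := by
  unfold pairsA
  rw [card_image_of_injective, card_range]
  intro a b h
  have h' : ({u a, - u a} : Finset Pt) = {u b, - u b} := h
  have h1 : u a ∈ ({u b, - u b} : Finset Pt) := by rw [← h']; simp
  rcases mem_insert.1 h1 with h2 | h2
  · exact u_inj h2
  · rw [mem_singleton] at h2
    have h3 := u_pos a
    have h4 := u_pos b
    rw [h2, Prod.snd_neg] at h3
    linarith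

lemma pairsA_mem (m : ℕ) : ∀ t ∈ pairsA m, ∃ a ∈ ring1 m, -a ∈ ring1 m ∧ t = {a, -a} := by
  intro t ht
  unfold pairsA at ht
  obtain ⟨k, hk, rfl⟩ := mem_image.1 ht
  refine ⟨u k, ?_, ?_, rfl⟩
  · unfold ring1
    exact mem_union_left _ (mem_union_left _ (mem_image_of_mem _ hk))
  · unfold ring1
    exact mem_union_left _ (mem_union_right _ (mem_image_of_mem (fun k => - u k) hk))

/-- a set of `n` points with few circles -/
theorem upper (n : ℕ) (hn : 4 ≤ n) : ∃ P : Finset Plane, P.card = n ∧
    Admissible (P : Set Plane) ∧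
    (Circles (P : Set Plane)).ncard ≤ (n - 2) ^ 2 / 2 + 1 := by
  obtain ⟨m, rfl⟩ : ∃ m, n = m + 1 := ⟨n - 1, by omega⟩
  have hS := ring1_on m
  have h0S : (0 : Pt) ∉ ring1 m := fun h => by
    have := hS 0 h
    simp [On1] at this
  have hinj : Function.Injective psi := fun u v e => by rw [← phi_psi u, e, phi_psi]
  have himg : ((insert 0 (ring1 m)).image psi).image phi = insert 0 (ring1 m) := by
    rw [image_image]
    have : phi ∘ psi = id := by
      funext x
      exact phi_psi x
    rw [this, image_id]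
  have hcard : ((insert 0 (ring1 m)).image psi).card = m + 1 := by
    rw [card_image_of_injective _ hinj, card_insert_of_notMem h0S, ring1_card]
  refine ⟨(insert 0 (ring1 m)).image psi, hcard, ?_, ?_⟩
  · rw [admissible_iff _ (by omega), himg]
    intro B hB
    rcases block_struct hS hB with rfl | ⟨h0, a, ha, b, hb, hab, rfl⟩
    · exact ⟨0, mem_insert_self _ _, h0S⟩
    · by_contra hcon
      push Not at hcon
      have hsub : insert 0 (ring1 m) ⊆ ({0, a, b} : Finset Pt) := hcon
      have h1 := card_le_card hsub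
      rw [card_insert_of_notMem h0S, ring1_card] at h1
      have h2 : ({0, a, b} : Finset Pt).card ≤ 3 := card_le_three
      omega
  · rw [ncard_circles, himg]
    have h := count_le hS (pairsA m) (pairsA_mem m)
    rw [ring1_card, pairsA_card, Nat.choose_two_right] at h
    have e1 : m + 1 - 2 = m - 1 := by omega
    rw [e1]
    obtain ⟨a, ha | ha⟩ : ∃ a, m = 2 * a ∨ m = 2 * a + 1 := ⟨m / 2, by omega⟩
    · subst ha
      obtain ⟨b, rfl⟩ : ∃ b, a = b + 1 := ⟨a - 1, by omega⟩
      have e2 : (2 * (b + 1) - 1) ^ 2 / 2 = 2 * b * b + 2 * b := by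
        have : (2 * (b + 1) - 1) ^ 2 = 2 * (2 * b * b + 2 * b) + 1 := by
          have : 2 * (b + 1) - 1 = 2 * b + 1 := by omega
          rw [this]; ring
        omega
      have e3 : 2 * (b + 1) * (2 * (b + 1) - 1) / 2 = 2 * b * b + 3 * b + 1 := by
        have : 2 * (b + 1) * (2 * (b + 1) - 1) = 2 * (2 * b * b + 3 * b + 1) := by
          have : 2 * (b + 1) - 1 = 2 * b + 1 := by omega
          rw [this]; ring
        omega
      rw [e3] at h
      rw [e2]
      omega
    · subst ha
      have e2 : (2 * a + 1 - 1) ^ 2 / 2 = 2 * a * a := by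
        have : (2 * a + 1 - 1) ^ 2 = 2 * (2 * a * a) := by
          have : 2 * a + 1 - 1 = 2 * a := by omega
          rw [this]; ring
        omega
      have e3 : (2 * a + 1) * (2 * a + 1 - 1) / 2 = 2 * a * a + a := by
        have : (2 * a + 1) * (2 * a + 1 - 1) = 2 * (2 * a * a + a) := by
          have : 2 * a + 1 - 1 = 2 * a := by omega
          rw [this]; ring
        omega
      rw [e3] at h
      rw [e2]
      omega

end

end Pool.Agent.TH348.Circ
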