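import Mathlib
import Pool.Agent.Helper543.PlaneC

/-! Counting circles of integer point sets by evaluation. -/

namespace Pool.Agent.TH348.Circ

open Finset Pool.Agent.Helper543.Melchior Pool.Agent.Helper543.Blocks
open Pool.Agent.Helper543.PlaneC

/-- integer version of `nrm` -/
def nrmZ (p a : ℤ × ℤ) : ℤ := (a.1 - p.1) * (a.1 - p.1) + (a.2 - p.2) * (a.2 - p.2)

/-- integer version of `G` -/
def GZ (p a b c : ℤ × ℤ) : ℤ :=
  (a.1 - p.1) * ((b.2 - p.2) * nrmZ p c - (c.2 - p.2) * nrmZ p b)
  - (a.2 - p.2) * ((b.1 - p.1) * nrmZ p c - (c.1 - p.1) * nrmZ p b)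
  + nrmZ p a * ((b.1 - p.1) * (c.2 - p.2) - (b.2 - p.2) * (c.1 - p.1))

/-- integer version of `cr` -/
def crZ (a b c : ℤ × ℤ) : ℤ := (b.1 - a.1) * (c.2 - a.2) - (b.2 - a.2) * (c.1 - a.1)

/-- the real point with given integer coordinates -/
noncomputable def toR (x : ℤ × ℤ) : Pt := ((x.1 : ℝ), (x.2 : ℝ))

lemma toR_inj : Function.Injective toR := by
  intro x y h
  have h1 : (x.1 : ℝ) = y.1 := congrArg Prod.fst h
  have h2 : (x.2 : ℝ) = y.2 := congrArg Prod.snd h
  ext
  · exact_mod_cast h1
  · exact_mod_cast h2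

lemma G_toR (p a b c : ℤ × ℤ) : G (toR p) (toR a) (toR b) (toR c) = (GZ p a b c : ℝ) := by
  simp only [G, GZ, nrm, nrmZ, toR]
  push_cast
  ring

lemma cr_toR (a b c : ℤ × ℤ) : cr (toR a) (toR b) (toR c) = (crZ a b c : ℝ) := by
  simp only [cr, crZ, toR]
  push_cast
  ring

/-- every triple of points of `Z` is collinear or lies in one of the sets of the list -/
def covered (Z : List (ℤ × ℤ)) (K : List (ℤ × ℤ → Bool)) : Bool :=
  Z.all fun a => Z.all fun b => Z.all fun c =>
    decide (crZ a b c = 0) || K.any fun f => f a && f b && f c &&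
      Z.all fun x => (f x == decide (GZ a b c x = 0))

open Classical in
/-- the circles number at most the length of a covering list -/
theorem card_le_of_covered (Z : List (ℤ × ℤ)) (K : List (ℤ × ℤ → Bool))
    (h : covered Z K = true) :
    (blocks (Z.toFinset.image toR) \ lines (Z.toFinset.image toR)).card ≤ K.length := by
  have hsub : blocks (Z.toFinset.image toR) \ lines (Z.toFinset.image toR) ⊆
      (K.map (fun f => ((Z.toFinset.filter (fun x => f x = true)).image toR))).toFinset := by
    intro B hB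
    obtain ⟨hBb, hBl⟩ := mem_sdiff.1 hB
    obtain ⟨a, ha, b, hb, c, hc, hab, hac, hbc, rfl⟩ := mem_blocks.1 hBb
    have hcr : cr a b c ≠ 0 := by
      intro h0
      apply hBl
      have := lineOf_mem_lines (S := Z.toFinset.image toR) ha hb hab
      convert this using 1
      ext x
      rw [mem_blk, mem_lineOf, G_of_collinear hab h0 hac.symm hbc.symm]
    obtain ⟨a, ha', rfl⟩ := mem_image.1 ha
    obtain ⟨b, hb', rfl⟩ := mem_image.1 hb
    obtain ⟨c, hc', rfl⟩ := mem_image.1 hc
    rw [List.mem_toFinset] at ha' hb' hc'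
    unfold covered at h
    rw [List.all_eq_true] at h
    have h1 := h a ha'
    rw [List.all_eq_true] at h1
    have h2 := h1 b hb'
    rw [List.all_eq_true] at h2
    have h3 := h2 c hc'
    rw [Bool.or_eq_true, decide_eq_true_eq] at h3
    rcases h3 with h3 | h3
    · exfalso
      apply hcr
      rw [cr_toR, h3]
      simp
    · rw [List.any_eq_true] at h3
      obtain ⟨f, hf, hff⟩ := h3
      rw [Bool.and_eq_true, Bool.and_eq_true, Bool.and_eq_true, List.all_eq_true] at hff
      obtain ⟨_, hall⟩ := hff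
      rw [List.mem_toFinset, List.mem_map]
      refine ⟨f, hf, ?_⟩
      ext x
      rw [mem_image, mem_blk, mem_image]
      constructor
      · rintro ⟨y, hy, rfl⟩
        obtain ⟨hy1, hy2⟩ := mem_filter.1 hy
        have h4 := hall y (List.mem_toFinset.1 hy1)
        rw [beq_iff_eq, hy2] at h4
        have h5 := of_decide_eq_true h4.symm
        refine ⟨⟨y, hy1, rfl⟩, ?_⟩
        rw [G_toR, h5]
        simp
      · rintro ⟨⟨y, hy, rfl⟩, hG⟩
        rw [G_toR] at hG
        have h5 : GZ a b c y = 0 := by exact_mod_cast hG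
        have h4 := hall y (List.mem_toFinset.1 hy)
        rw [beq_iff_eq, h5] at h4
        refine ⟨y, mem_filter.2 ⟨hy, ?_⟩, rfl⟩
        simpa using h4
  calc _ ≤ _ := card_le_card hsub
    _ ≤ _ := List.toFinset_card_le _
    _ = _ := List.length_map _

open Classical in
/-- an integer point set with few circles, in the plane -/
theorem exists_of_covered (Z : List (ℤ × ℤ)) (hZ : Z.Nodup) (h3 : 3 ≤ Z.length)
    (K : List (ℤ × ℤ → Bool)) (h : covered Z K = true)
    (hadm : (Z.all fun a => Z.all fun b => Z.all fun c => a == b || a == c || b == c ||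
      Z.any fun x => decide (GZ a b c x ≠ 0)) = true) :
    ∃ P : Finset Plane, P.card = Z.length ∧ Admissible (P : Set Plane) ∧
      (Circles (P : Set Plane)).ncard ≤ K.length := by
  have hinj : Function.Injective psi := fun u v e => by rw [← phi_psi u, e, phi_psi]
  have himg : ((Z.toFinset.image toR).image psi).image phi = Z.toFinset.image toR := by
    rw [image_image]
    have : phi ∘ psi = id := by
      funext x
      exact phi_psi x
    rw [this, image_id]
  have hcard : ((Z.toFinset.image toR).image psi).card = Z.length := by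
    rw [card_image_of_injective _ hinj, card_image_of_injective _ toR_inj,
      List.toFinset_card_of_nodup hZ]
  refine ⟨(Z.toFinset.image toR).image psi, hcard, ?_, ?_⟩
  · rw [admissible_iff _ (by omega), himg]
    intro B hB
    obtain ⟨a, ha, b, hb, c, hc, hab, hac, hbc, rfl⟩ := mem_blocks.1 hB
    obtain ⟨a, ha', rfl⟩ := mem_image.1 ha
    obtain ⟨b, hb', rfl⟩ := mem_image.1 hb
    obtain ⟨c, hc', rfl⟩ := mem_image.1 hc
    rw [List.mem_toFinset] at ha' hb' hc'
    rw [List.all_eq_true] at hadm
    have h1 := hadm a ha'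
    rw [List.all_eq_true] at h1
    have h2 := h1 b hb'
    rw [List.all_eq_true] at h2
    have h3 := h2 c hc'
    have n1 : (a == b) = false := beq_false_of_ne (fun e => hab (by rw [e]))
    have n2 : (a == c) = false := beq_false_of_ne (fun e => hac (by rw [e]))
    have n3 : (b == c) = false := beq_false_of_ne (fun e => hbc (by rw [e]))
    rw [n1, n2, n3] at h3
    simp only [Bool.false_or] at h3
    rw [List.any_eq_true] at h3
    obtain ⟨x, hx, hxG⟩ := h3
    refine ⟨toR x, mem_image_of_mem _ (List.mem_toFinset.2 hx), ?_⟩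
    rw [mem_blk, G_toR]
    rintro ⟨_, h0⟩
    have : GZ a b c x = 0 := by exact_mod_cast h0
    exact (of_decide_eq_true hxG) this
  · rw [ncard_circles, himg]
    exact card_le_of_covered Z K h

/-- vertices of a triangle and feet of its altitudes -/
def Z6 : List (ℤ × ℤ) := [(0, 20), (-10, 0), (20, 0), (0, 0), (5, 15), (-4, 12)]

/-- vertices of a triangle, feet of its altitudes and orthocentre -/
def Z7 : List (ℤ × ℤ) := [(0, 20), (-10, 0), (20, 0), (0, 0), (5, 15), (-4, 12), (0, 10)]

/-- membership test -/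
def mem (l : List (ℤ × ℤ)) : ℤ × ℤ → Bool := fun x => l.contains x

/-- the circles of `Z6` -/
def K6 : List (ℤ × ℤ → Bool) :=
  [mem [(-10, 0), (20, 0), (5, 15), (-4, 12)], mem [(0, 20), (20, 0), (-4, 12), (0, 0)],
   mem [(0, 20), (-10, 0), (0, 0), (5, 15)], mem [(0, 20), (-10, 0), (20, 0)],
   mem [(0, 0), (5, 15), (-4, 12)], mem [(0, 20), (5, 15), (-4, 12)],
   mem [(-10, 0), (0, 0), (-4, 12)], mem [(20, 0), (0, 0), (5, 15)]]

/-- the circles of `Z7` -/
def K7 : List (ℤ × ℤ → Bool) :=
  [mem [(-10, 0), (20, 0), (5, 15), (-4, 12)], mem [(0, 20), (20, 0), (-4, 12), (0, 0)],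
   mem [(0, 20), (-10, 0), (0, 0), (5, 15)], mem [(0, 20), (-10, 0), (20, 0)],
   mem [(0, 0), (5, 15), (-4, 12)], mem [(0, 20), (5, 15), (-4, 12), (0, 10)],
   mem [(-10, 0), (0, 0), (-4, 12), (0, 10)], mem [(20, 0), (0, 0), (5, 15), (0, 10)],
   mem [(-10, 0), (20, 0), (0, 10)], mem [(0, 20), (-10, 0), (0, 10)],
   mem [(0, 20), (20, 0), (0, 10)]]

theorem upper6 : ∃ P : Finset Plane, P.card = 6 ∧ Admissible (P : Set Plane) ∧
    (Circles (P : Set Plane)).ncard ≤ 8 :=
  exists_of_covered Z6 (by decide +kernel) (by decide +kernel) K6 (by decide +kernel)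
    (by decide +kernel)

theorem upper7 : ∃ P : Finset Plane, P.card = 7 ∧ Admissible (P : Set Plane) ∧
    (Circles (P : Set Plane)).ncard ≤ 11 :=
  exists_of_covered Z7 (by decide +kernel) (by decide +kernel) K7 (by decide +kernel)
    (by decide +kernel)

end Pool.Agent.TH348.Circ
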